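import Mathlib

set_option autoImplicit false

/-!
Cuttings of cyclic sequences into words: the number of elements against the number of runs of ascending
words.
-/

namespace Pool.Agent.H26.CU

open Finset
open scoped Classical

/-- The words `w i` have the length `L i` and `s i` odd letters; `D i` is the logarithm of the element at
which the word `w i` starts; `ε i` is the error. -/
structure Chain {W : Type} (q c0 δ κ : ℝ) (ℓ : ℕ) (w : ℕ → W) (L s : ℕ → ℕ) (D ε : ℕ → ℝ) :
    Prop where
  q3 : 3 ≤ q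
  L1 : ∀ i, 1 ≤ L i
  Ll : ∀ i, L i ≤ ℓ
  sL : ∀ i, s i ≤ L i
  same : ∀ i j, w i = w j → L i = L j ∧ s i = s j
  e0 : ∀ i, 0 ≤ ε i
  step : ∀ i, |D (i + 1) - D i + L i * Real.log 2 - s i * Real.log q| ≤ ε i
  run : ∀ i m, (∀ t < m, w (i + t) = w i) → (m : ℝ) * L i * Real.log 2 ≤ D i + c0
  dsc : ∀ i, ¬ ((L i : ℝ) * Real.log 2 < s i * Real.log q) →
    (s i : ℝ) * Real.log q + δ ≤ L i * Real.log 2
  d0 : 0 < δ
  d1 : δ ≤ 1
  kap : Real.log q / Real.log 2 ≤ κ

theorem log2_ge : (1 / 2 : ℝ) ≤ Real.log 2 := by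
  have := Real.log_two_gt_d9; linarith

theorem log3_ge : (1 : ℝ) ≤ Real.log 3 := by
  rw [Real.le_log_iff_exp_le (by norm_num)]
  have := Real.exp_one_lt_d9
  linarith

variable {W : Type} {q c0 δ κ : ℝ} {ℓ : ℕ} {w : ℕ → W} {L s : ℕ → ℕ} {D ε : ℕ → ℝ}

/-- ascending words -/
def Asc (q : ℝ) (L s : ℕ → ℕ) (i : ℕ) : Prop := (L i : ℝ) * Real.log 2 < s i * Real.log q

/-- the number of the ends of runs of ascending words -/
noncomputable def En (q : ℝ) (w : ℕ → W) (L s : ℕ → ℕ) (i : ℕ) : ℕ :=
  ((range i).filter fun j => Asc q L s j ∧ w (j + 1) ≠ w j).card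

/-- the number of ascending words -/
noncomputable def As (q : ℝ) (L s : ℕ → ℕ) (i : ℕ) : ℕ := ((range i).filter (Asc q L s)).card

/-- inside of a run of ascending words -/
noncomputable def ee (q : ℝ) (w : ℕ → W) (L s : ℕ → ℕ) (i : ℕ) : ℕ :=
  if ∃ k, i = k + 1 ∧ Asc q L s k ∧ w (k + 1) = w k then 1 else 0

/-- the sum of the errors -/
noncomputable def Er (ε : ℕ → ℝ) (i : ℕ) : ℝ := ∑ j ∈ range i, ε j

theorem Er_succ (ε : ℕ → ℝ) (i : ℕ) : Er ε (i + 1) = Er ε i + ε i := Finset.sum_range_succ _ _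

namespace Chain

theorem Er_mono (h : Chain q c0 δ κ ℓ w L s D ε) {i j : ℕ} (hij : i ≤ j) : Er ε i ≤ Er ε j :=
  Finset.sum_le_sum_of_subset_of_nonneg (Finset.range_mono hij) fun k _ _ => h.e0 k

theorem Er_nonneg (h : Chain q c0 δ κ ℓ w L s D ε) (i : ℕ) : 0 ≤ Er ε i :=
  Finset.sum_nonneg fun k _ => h.e0 k

theorem logq (h : Chain q c0 δ κ ℓ w L s D ε) : 1 ≤ Real.log q :=
  log3_ge.trans (Real.log_le_log (by norm_num) h.q3)

theorem k0 (h : Chain q c0 δ κ ℓ w L s D ε) : 1 ≤ Real.log q / Real.log 2 := by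
  rw [le_div_iff₀ (by linarith [log2_ge]), one_mul]
  exact Real.log_le_log (by norm_num) (by linarith [h.q3])

theorem k1 (h : Chain q c0 δ κ ℓ w L s D ε) : 1 ≤ κ := h.k0.trans h.kap

theorem pos (h : Chain q c0 δ κ ℓ w L s D ε) (i : ℕ) : 0 ≤ D i + c0 := by
  have h1 := h.run i 0 (by intro t ht; omega)
  simpa using h1

theorem asc_congr (h : Chain q c0 δ κ ℓ w L s D ε) {i j : ℕ} (hij : w i = w j) :
    Asc q L s i ↔ Asc q L s j := by
  obtain ⟨h1, h2⟩ := h.same i j hij
  unfold Asc
  rw [h1, h2]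

/-- the growth over a run -/
theorem grow (h : Chain q c0 δ κ ℓ w L s D ε) (i m : ℕ) (hr : ∀ t < m, w (i + t) = w i) :
    D (i + m) + c0 ≤ κ * (D i + c0) + (Er ε (i + m) - Er ε i) := by
  have h1 : ∀ k ≤ m, D (i + k) ≤ D i + k * (s i * Real.log q - L i * Real.log 2) +
      (Er ε (i + k) - Er ε i) := by
    intro k
    induction k with
    | zero => intro _; simp
    | succ k ih =>
      intro hk
      have h2 := ih (by omega)
      obtain ⟨h3, h4⟩ := h.same _ _ (hr k (by omega))
      have h5 := (abs_le.1 (h.step (i + k))).2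
      rw [h3, h4] at h5
      rw [show i + (k + 1) = i + k + 1 by ring, Er_succ]
      push_cast
      linarith
  have h2 := h1 m le_rfl
  have h3 := h.run i m hr
  have hl := log2_ge
  have hlq := h.logq
  have hsL : (s i : ℝ) ≤ L i := by exact_mod_cast h.sL i
  have hm : (0 : ℝ) ≤ m := Nat.cast_nonneg _
  have hp := h.pos i
  have hk0 := h.k0
  set K := Real.log q / Real.log 2 with hK
  have hKl : Real.log q = K * Real.log 2 := by
    rw [hK]; field_simp
  have h4 : (m : ℝ) * (s i * Real.log q - L i * Real.log 2) ≤ (K - 1) * (D i + c0) := by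
    calc (m : ℝ) * (s i * Real.log q - L i * Real.log 2)
        ≤ m * (L i * Real.log q - L i * Real.log 2) := by
          apply mul_le_mul_of_nonneg_left _ hm
          have := mul_le_mul_of_nonneg_right hsL (by linarith : (0 : ℝ) ≤ Real.log q)
          linarith
      _ = (K - 1) * (m * L i * Real.log 2) := by rw [hKl]; ring
      _ ≤ _ := mul_le_mul_of_nonneg_left h3 (by linarith)
  have h6 : K * (D i + c0) ≤ κ * (D i + c0) := mul_le_mul_of_nonneg_right h.kap hp
  nlinarith

/-- the length of a run -/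
theorem run_le (h : Chain q c0 δ κ ℓ w L s D ε) (i m : ℕ) (hr : ∀ t < m, w (i + t) = w i) :
    (m : ℝ) ≤ 2 * (D i + c0) := by
  have h3 := h.run i m hr
  have hl := log2_ge
  have hL : (1 : ℝ) ≤ L i := by exact_mod_cast h.L1 i
  have hm : (0 : ℝ) ≤ m := Nat.cast_nonneg _
  have h4 : (m : ℝ) * (1 / 2) ≤ m * (L i * Real.log 2) := by
    apply mul_le_mul_of_nonneg_left _ hm
    nlinarith
  nlinarith

theorem down (h : Chain q c0 δ κ ℓ w L s D ε) {i : ℕ} (hi : ¬ Asc q L s i) :
    D (i + 1) ≤ D i - δ + ε i := by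
  have h1 := h.dsc i hi
  have h2 := (abs_le.1 (h.step i)).2
  linarith

theorem up (h : Chain q c0 δ κ ℓ w L s D ε) (i : ℕ) : D (i + 1) ≤ D i + ℓ * Real.log q + ε i := by
  have h2 := (abs_le.1 (h.step i)).2
  have hl := log2_ge
  have hlq := h.logq
  have h4 : (L i : ℝ) ≤ ℓ := by exact_mod_cast h.Ll i
  have hsL : (s i : ℝ) ≤ L i := by exact_mod_cast h.sL i
  have hL : (1 : ℝ) ≤ L i := by exact_mod_cast h.L1 i
  have h5 : 0 ≤ (L i : ℝ) * Real.log 2 := by positivity
  have h6 : (s i : ℝ) * Real.log q ≤ ℓ * Real.log q :=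
    mul_le_mul_of_nonneg_right (hsL.trans h4) (by linarith)
  linarith

end Chain

theorem run_start (w : ℕ → W) (i : ℕ) : ∃ j ≤ i, (∀ t, j ≤ t → t ≤ i → w t = w i) ∧
    (j = 0 ∨ ∃ k, j = k + 1 ∧ w k ≠ w i) := by
  induction i with
  | zero => exact ⟨0, le_rfl, fun t _ ht => by rw [Nat.le_zero.1 ht], Or.inl rfl⟩
  | succ i ih =>
    by_cases hw : w i = w (i + 1)
    · obtain ⟨j, hj, h1, h2⟩ := ih
      refine ⟨j, by omega, fun t ht1 ht2 => ?_, ?_⟩
      · rcases Nat.lt_or_ge t (i + 1) with h3 | h3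
        · rw [h1 t ht1 (by omega), hw]
        · rw [show t = i + 1 by omega]
      · rcases h2 with h2 | ⟨k, hk, h3⟩
        · exact Or.inl h2
        · exact Or.inr ⟨k, hk, by rwa [← hw]⟩
    · exact ⟨i + 1, le_rfl, fun t h1 h2 => by rw [show t = i + 1 by omega], Or.inr ⟨i, rfl, hw⟩⟩

theorem En_succ (q : ℝ) (w : ℕ → W) (L s : ℕ → ℕ) (i : ℕ) :
    En q w L s (i + 1) = En q w L s i + if Asc q L s i ∧ w (i + 1) ≠ w i then 1 else 0 := by
  unfold En
  rw [Finset.range_add_one, Finset.filter_insert]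
  split_ifs with h
  · rw [Finset.card_insert_of_notMem (by simp)]
  · rw [add_zero]

theorem En_le_card {α : Type} (x : ℕ → α) (Y : Finset α) (q : ℝ) (w : ℕ → W) (L s : ℕ → ℕ) (i : ℕ)
    (hm : ∀ j < i, Asc q L s j → w (j + 1) ≠ w j → x j ∈ Y)
    (hi : ∀ j < i, ∀ k < i, x j = x k → j = k) : En q w L s i ≤ Y.card := by
  unfold En
  refine Finset.card_le_card_of_injOn x ?_ ?_
  · intro j hj
    rw [mem_coe, mem_filter, mem_range] at hj
    exact hm j hj.1 hj.2.1 hj.2.2
  · intro j hj k hk hjk
    rw [mem_coe, mem_filter, mem_range] at hj hk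
    exact hi j hj.1 k hk.1 hjk

theorem As_succ (q : ℝ) (L s : ℕ → ℕ) (i : ℕ) :
    As q L s (i + 1) = As q L s i + if Asc q L s i then 1 else 0 := by
  unfold As
  rw [Finset.range_add_one, Finset.filter_insert]
  split_ifs with h
  · rw [Finset.card_insert_of_notMem (by simp)]
  · rw [add_zero]

theorem As_le (q : ℝ) (L s : ℕ → ℕ) (j m : ℕ) : As q L s (j + m) ≤ As q L s j + m := by
  induction m with
  | zero => simp
  | succ m ih =>
    rw [show j + (m + 1) = j + m + 1 by ring, As_succ]
    split_ifs <;> omega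

namespace Chain

theorem main (h : Chain q c0 δ κ ℓ w L s D ε) (i : ℕ) :
    D i + c0 ≤ κ ^ (En q w L s i + ee q w L s i) * (D 0 + c0 + Er ε i) ∧
      (As q L s i : ℝ) ≤ 2 * (En q w L s i + ee q w L s i : ℕ) *
        (κ ^ (En q w L s i + ee q w L s i) * (D 0 + c0 + Er ε i)) := by
  have hk := h.k1
  have hB := h.pos 0
  induction i using Nat.strong_induction_on with
  | _ i ih =>
    rcases i with _ | k
    · have e1 : En q w L s 0 = 0 := by simp [En]
      have e2 : As q L s 0 = 0 := by simp [As]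
      have e3 : ee q w L s 0 = 0 := by
        unfold ee
        rw [if_neg]
        rintro ⟨k, hk, -⟩
        omega
      have e4 : Er ε 0 = 0 := by simp [Er]
      rw [e1, e2, e3, e4]
      simp
    · by_cases ha : Asc q L s k
      · obtain ⟨j, hj, hjr, hjs⟩ := run_start w k
        have ej : ee q w L s j = 0 := by
          unfold ee
          rw [if_neg]
          rintro ⟨k', hk', -, hw⟩
          rcases hjs with h1 | ⟨k'', hk'', h2⟩
          · omega
          · have : k'' = k' := by omega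
            subst this
            apply h2
            rw [← hw, ← hk', hjr j le_rfl hj]
        have eE : ∀ t, j ≤ t → t ≤ k → En q w L s t = En q w L s j := by
          intro t ht1
          induction t, ht1 using Nat.le_induction with
          | base => intro _; rfl
          | succ t ht1 iht =>
            intro ht2
            rw [En_succ, if_neg, add_zero, iht (by omega)]
            rintro ⟨-, h2⟩
            exact h2 (by rw [hjr (t + 1) (by omega) ht2, hjr t ht1 (by omega)])
        have eS : En q w L s (k + 1) + ee q w L s (k + 1) = En q w L s j + 1 := by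
          rw [En_succ, eE k hj le_rfl]
          by_cases hw : w (k + 1) = w k
          · have : ee q w L s (k + 1) = 1 := by
              unfold ee
              rw [if_pos ⟨k, rfl, ha, hw⟩]
            rw [this, if_neg (by tauto)]
          · have : ee q w L s (k + 1) = 0 := by
              unfold ee
              rw [if_neg]
              rintro ⟨k', hk', -, h2⟩
              have : k' = k := by omega
              subst this
              exact hw h2
            rw [this, if_pos ⟨ha, hw⟩]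
        obtain ⟨i1, i2⟩ := ih j (by omega)
        rw [ej, add_zero] at i1 i2
        have hrun : ∀ t < k + 1 - j, w (j + t) = w j := by
          intro t ht
          rw [hjr (j + t) (by omega) (by omega), hjr j le_rfl hj]
        have g1 := h.grow j (k + 1 - j) hrun
        have g2 := h.run_le j (k + 1 - j) hrun
        have e5 : j + (k + 1 - j) = k + 1 := by omega
        rw [e5] at g1
        rw [eS]
        have g3 := h.Er_mono (show j ≤ k + 1 by omega)
        have g4 := h.Er_nonneg j
        set E := En q w L s j with hE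
        set B := D 0 + c0 with hBd
        set R := Er ε j with hR
        set R' := Er ε (k + 1) with hR'
        have hp1 : (1 : ℝ) ≤ κ ^ E := one_le_pow₀ hk
        have hp2 : (1 : ℝ) ≤ κ ^ (E + 1) := one_le_pow₀ hk
        have hx : 0 ≤ κ ^ E * (B + R) := mul_nonneg (by linarith) (by linarith)
        have hx2 : κ ^ E * (B + R) ≤ κ ^ (E + 1) * (B + R') := by
          apply mul_le_mul (pow_le_pow_right₀ hk (by omega)) (by linarith) (by linarith) (by linarith)
        constructor
        · calc D (k + 1) + c0 ≤ κ * (D j + c0) + (R' - R) := g1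
            _ ≤ κ * (κ ^ E * (B + R)) + κ ^ (E + 1) * (R' - R) := by
              have h7 : κ * (D j + c0) ≤ κ * (κ ^ E * (B + R)) :=
                mul_le_mul_of_nonneg_left i1 (by linarith)
              have h8 : 1 * (R' - R) ≤ κ ^ (E + 1) * (R' - R) :=
                mul_le_mul_of_nonneg_right hp2 (by linarith)
              linarith
            _ = κ ^ (E + 1) * (B + R') := by rw [pow_succ]; ring
        · have h5 := As_le q L s j (k + 1 - j)
          rw [e5] at h5
          have h6 : (As q L s (k + 1) : ℝ) ≤ As q L s j + ((k + 1 - j : ℕ) : ℝ) := by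
            exact_mod_cast h5
          push_cast
          have hE0 : (0 : ℝ) ≤ E := Nat.cast_nonneg _
          calc (As q L s (k + 1) : ℝ) ≤ 2 * E * (κ ^ E * (B + R)) + 2 * (κ ^ E * (B + R)) := by
                linarith
            _ = 2 * (E + 1) * (κ ^ E * (B + R)) := by ring
            _ ≤ 2 * (E + 1) * (κ ^ (E + 1) * (B + R')) :=
              mul_le_mul_of_nonneg_left hx2 (by positivity)
      · have e1 : En q w L s (k + 1) = En q w L s k := by
          rw [En_succ, if_neg (by tauto), add_zero]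
        have e2 : As q L s (k + 1) = As q L s k := by
          rw [As_succ, if_neg ha, add_zero]
        have e3 : ee q w L s (k + 1) = 0 := by
          unfold ee
          rw [if_neg]
          rintro ⟨k', hk', h2, -⟩
          have : k' = k := by omega
          subst this
          exact ha h2
        have e4 : ee q w L s k = 0 := by
          unfold ee
          rw [if_neg]
          rintro ⟨k', hk', h2, h3⟩
          apply ha
          rw [hk', h.asc_congr h3]
          exact h2
        obtain ⟨i1, i2⟩ := ih k (by omega)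
        rw [e4, add_zero] at i1 i2
        rw [e1, e2, e3, add_zero, Er_succ]
        have h5 := h.down ha
        have h6 := h.e0 k
        have h7 := h.d0
        set E := En q w L s k with hE
        have hp1 : (1 : ℝ) ≤ κ ^ E := one_le_pow₀ hk
        have h8 : 1 * ε k ≤ κ ^ E * ε k := mul_le_mul_of_nonneg_right hp1 h6
        have h9 : κ ^ E * (D 0 + c0 + (Er ε k + ε k)) = κ ^ E * (D 0 + c0 + Er ε k) + κ ^ E * ε k := by
          ring
        rw [h9]
        refine ⟨by linarith, i2.trans ?_⟩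
        apply mul_le_mul_of_nonneg_left _ (by positivity)
        linarith

/-- **The number of elements against the number of runs.** -/
theorem total (h : Chain q c0 δ κ ℓ w L s D ε) {n : ℕ} (hn : D n = D 0) :
    ((∑ i ∈ range n, L i : ℕ) : ℝ) ≤ ℓ / δ * (3 + 2 * (ℓ * Real.log q)) *
      ((En q w L s n + 1 : ℕ) * (κ ^ (En q w L s n + 1) * (D 0 + c0 + Er ε n))) := by
  have hk := h.k1
  have hB := h.pos 0
  obtain ⟨-, h2⟩ := h.main n
  have hEr := h.Er_nonneg n
  have hee : ee q w L s n ≤ 1 := by unfold ee; split_ifs <;> omega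
  set A := En q w L s n with hA
  set B := D 0 + c0 + Er ε n with hBd
  have hB0 : 0 ≤ B := by linarith
  have hX0 : 0 ≤ ((A + 1 : ℕ) : ℝ) * (κ ^ (A + 1) * B) :=
    mul_nonneg (by positivity) (mul_nonneg (pow_nonneg (by linarith) _) hB0)
  have h3 : (As q L s n : ℝ) ≤ 2 * ((A + 1 : ℕ) * (κ ^ (A + 1) * B)) := by
    refine h2.trans ?_
    have h4 : ((A + ee q w L s n : ℕ) : ℝ) ≤ (A + 1 : ℕ) := by exact_mod_cast (by omega)
    have h5 : κ ^ (A + ee q w L s n) ≤ κ ^ (A + 1) := pow_le_pow_right₀ hk (by omega)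
    have h6 : κ ^ (A + ee q w L s n) * B ≤ κ ^ (A + 1) * B := mul_le_mul_of_nonneg_right h5 hB0
    have h7 : 0 ≤ κ ^ (A + ee q w L s n) * B := mul_nonneg (pow_nonneg (by linarith) _) hB0
    calc 2 * ((A + ee q w L s n : ℕ) : ℝ) * (κ ^ (A + ee q w L s n) * B)
        ≤ 2 * ((A + 1 : ℕ) : ℝ) * (κ ^ (A + ee q w L s n) * B) :=
          mul_le_mul_of_nonneg_right (by linarith) h7
      _ ≤ 2 * ((A + 1 : ℕ) : ℝ) * (κ ^ (A + 1) * B) :=
          mul_le_mul_of_nonneg_left h6 (by positivity)
      _ = 2 * ((A + 1 : ℕ) * (κ ^ (A + 1) * B)) := by ring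
  -- the telescoping sum
  have h4 : ∀ m : ℕ, D m ≤ D 0 + As q L s m * (ℓ * Real.log q) -
      ((m : ℝ) - As q L s m) * δ + Er ε m := by
    intro m
    induction m with
    | zero => simp [As, Er]
    | succ m ih =>
      rw [As_succ, Er_succ]
      split_ifs with ha
      · have := h.up m
        push_cast
        nlinarith
      · have := h.down ha
        push_cast
        nlinarith
  have h5 := h4 n
  rw [hn] at h5
  set a : ℝ := ((As q L s n : ℕ) : ℝ) with ha
  have ha0 : 0 ≤ a := Nat.cast_nonneg _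
  have hd0 := h.d0
  have hd1 := h.d1
  have hlq := h.logq
  set X := ((A + 1 : ℕ) : ℝ) * (κ ^ (A + 1) * B) with hX
  have hErX : Er ε n ≤ X := by
    have h6 : Er ε n ≤ B := by linarith
    have h7 : (1 : ℝ) ≤ κ ^ (A + 1) := one_le_pow₀ hk
    have h8 : B ≤ κ ^ (A + 1) * B := le_mul_of_one_le_left hB0 h7
    have h9 : (1 : ℝ) ≤ ((A + 1 : ℕ) : ℝ) := by exact_mod_cast (by omega : 1 ≤ A + 1)
    have h10 : κ ^ (A + 1) * B ≤ X := le_mul_of_one_le_left (by linarith) h9
    linarith
  have h6 : (n : ℝ) * δ ≤ a + a * (ℓ * Real.log q) + Er ε n := by nlinarith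
  have h7 : (n : ℝ) * δ ≤ (3 + 2 * (ℓ * Real.log q)) * X := by
    have h8 : 0 ≤ (ℓ : ℝ) * Real.log q := by positivity
    have h9 : a * (ℓ * Real.log q) ≤ 2 * X * (ℓ * Real.log q) := mul_le_mul_of_nonneg_right h3 h8
    nlinarith
  have h8 : ((∑ i ∈ range n, L i : ℕ) : ℝ) ≤ ℓ * n := by
    push_cast
    calc ∑ i ∈ range n, (L i : ℝ) ≤ ∑ _i ∈ range n, (ℓ : ℝ) :=
          Finset.sum_le_sum fun i _ => by exact_mod_cast h.Ll i
      _ = ℓ * n := by simp [mul_comm]
  have h9 : (n : ℝ) ≤ (3 + 2 * (ℓ * Real.log q)) * X / δ := by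
    rw [le_div_iff₀ hd0]
    exact h7
  calc ((∑ i ∈ range n, L i : ℕ) : ℝ) ≤ ℓ * n := h8
    _ ≤ ℓ * ((3 + 2 * (ℓ * Real.log q)) * X / δ) := mul_le_mul_of_nonneg_left h9 (by positivity)
    _ = _ := by ring

end Chain

end Pool.Agent.H26.CU
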