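import Mathlib
import Pool.Agent.H15.Asc.Cycle
import Pool.Agent.H15.Asc.NuP
import Pool.Agent.H26.CU.Core

set_option autoImplicit false

/-!
Marked elements of a cycle.
-/

namespace Pool.Agent.H26.CU

open Finset
open Pool.Agent.H15.Asc (T IsCycle Orb od fc FS par Nu)

/-- the number of steps from `y` to the next marked element -/
noncomputable def gap (f : ℤ → ℤ) (S : Finset ℤ) (y : ℤ) : ℕ := sInf {j | 1 ≤ j ∧ f^[j] y ∈ S}

/-- the parities of `y, f y, ...`, up to the next marked element, which is not included -/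
noncomputable def word (f : ℤ → ℤ) (S : Finset ℤ) (y : ℤ) : List ℤ :=
  (List.range (gap f S y)).map fun i => f^[i] y % 2

/-- the next marked element -/
noncomputable def nxt (f : ℤ → ℤ) (S : Finset ℤ) (y : ℤ) : ℤ := f^[gap f S y] y

/-- every element of `Z` reaches a marked element in at most `ℓ` steps -/
def Within (f : ℤ → ℤ) (Z S : Finset ℤ) (ℓ : ℕ) : Prop :=
  ∀ z ∈ Z, ∃ j, 1 ≤ j ∧ j ≤ ℓ ∧ f^[j] z ∈ S

/-- a word is ascending if `2 ^ length < q ^ (number of odd letters)` -/
def Ascending (q : ℕ) (u : List ℤ) : Prop := 2 ^ u.length < q ^ u.count 1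

open Classical in
/-- the marked elements whose word is ascending and different from the next word -/
noncomputable def turns (q : ℕ) (f : ℤ → ℤ) (S : Finset ℤ) : Finset ℤ :=
  S.filter fun y => Ascending q (word f S y) ∧ word f S (nxt f S y) ≠ word f S y

section
variable {f : ℤ → ℤ} {Z S : Finset ℤ} {ℓ : ℕ}

theorem gap_spec (h : Within f Z S ℓ) {y : ℤ} (hy : y ∈ Z) :
    1 ≤ gap f S y ∧ gap f S y ≤ ℓ ∧ nxt f S y ∈ S := by
  obtain ⟨j, h1, h2, h3⟩ := h y hy
  have h4 : gap f S y ∈ {j | 1 ≤ j ∧ f^[j] y ∈ S} := Nat.sInf_mem ⟨j, h1, h3⟩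
  have h5 : gap f S y ≤ j := Nat.sInf_le ⟨h1, h3⟩
  exact ⟨h4.1, h5.trans h2, h4.2⟩

theorem not_mem_of_lt_gap {y : ℤ} {j : ℕ} (h1 : 1 ≤ j) (h2 : j < gap f S y) : f^[j] y ∉ S := by
  intro h3
  have h4 : gap f S y ≤ j := Nat.sInf_le ⟨h1, h3⟩
  omega

theorem word_length (y : ℤ) : (word f S y).length = gap f S y := by
  simp [word]

theorem word_eq {y z : ℤ} (h : word f S y = word f S z) :
    gap f S y = gap f S z ∧ ∀ j < gap f S y, f^[j] y % 2 = f^[j] z % 2 := by
  have h1 : gap f S y = gap f S z := by rw [← word_length, ← word_length, h]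
  refine ⟨h1, fun j hj => ?_⟩
  unfold word at h
  rw [← h1] at h
  have h2 := (List.map_inj_left.1 h) j (List.mem_range.2 hj)
  exact h2

theorem word_count (f : ℤ → ℤ) (y : ℤ) (L : ℕ) :
    ((List.range L).map fun i => f^[i] y % 2).count 1 = od (fun i => f^[i] y) L := by
  induction L with
  | zero => rfl
  | succ L ih =>
    rw [List.range_succ, List.map_append, List.count_append, ih]
    have e : od (fun i => f^[i] y) (L + 1) = od (fun i => f^[i] y) L + (f^[L] y % 2).toNat := rfl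
    rw [e]
    congr 1
    rcases par (f^[L] y) with h | h <;> simp [h]

end

/-- the same parities -/
theorem same_word {q d : ℤ} (hq : q % 2 = 1) (hd : d % 2 = 1) (x y : ℤ) (L : ℕ)
    (h : ∀ j < L, (T q d)^[j] x % 2 = (T q d)^[j] y % 2) :
    2 ^ L * ((T q d)^[L] x - (T q d)^[L] y) = q ^ od (fun i => (T q d)^[i] x) L * (x - y) := by
  induction L with
  | zero => simp [od]
  | succ L ih =>
    have ih := ih fun j hj => h j (by omega)
    have e : od (fun i => (T q d)^[i] x) (L + 1) =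
        od (fun i => (T q d)^[i] x) L + ((T q d)^[L] x % 2).toNat := rfl
    rw [e, Function.iterate_succ_apply', Function.iterate_succ_apply']
    have h1 := h L (by omega)
    set X := (T q d)^[L] x with hX
    set Y := (T q d)^[L] y with hY
    rcases par X with h2 | h2
    · have h3 := Pool.Agent.H15.Asc.T_even (q := q) (d := d) h2
      have h4 := Pool.Agent.H15.Asc.T_even (q := q) (d := d) (h1.symm.trans h2)
      rw [h2]
      simp only [Int.toNat_zero, add_zero]
      rw [← ih, pow_succ]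
      linear_combination (2 ^ L) * h3 - (2 ^ L) * h4
    · have h3 := Pool.Agent.H15.Asc.T_odd hq hd h2
      have h4 := Pool.Agent.H15.Asc.T_odd hq hd (h1.symm.trans h2)
      rw [h2]
      have e1 : (1 : ℤ).toNat = 1 := rfl
      rw [e1, pow_succ, pow_succ]
      linear_combination (2 ^ L) * h3 - (2 ^ L) * h4 + q * ih

section
variable {q d : ℤ} {Z S : Finset ℤ} {ℓ : ℕ} {N : ℝ}

/-- the orbit of an element -/
theorem orb_of (hZ : IsCycle (T q d) Z) (hq3 : 3 ≤ q) (hq : q % 2 = 1) (hd : d % 2 = 1)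
    (hN : 10 ≤ N) (hbig : ∀ x ∈ Z, N * |(d : ℝ)| ≤ |(x : ℝ)|) {x : ℤ} (hx : x ∈ Z) :
    Orb q d (fun i => (T q d)^[i] x) Z.card N where
  q3 := hq3
  qodd := hq
  dodd := hd
  step i := Function.iterate_succ_apply' _ _ _
  per i := by
    have h1 : (T q d)^[Z.card] x = x := by
      rw [hZ.card_eq hx]
      exact Function.iterate_minimalPeriod
    change (T q d)^[i + Z.card] x = (T q d)^[i] x
    rw [Function.iterate_add_apply, h1]
  pos := Finset.card_pos.2 hZ.nonempty
  N10 := hN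
  big i := hbig _ (hZ.closed hx i)

/-- one block of the orbit -/
theorem log_block {a : ℕ → ℤ} {p : ℕ} (h : Orb q d a p N) (L : ℕ) :
    |Real.log |(a L : ℝ)| - Real.log |(a 0 : ℝ)| + L * Real.log 2 - (od a L : ℝ) * Real.log q| ≤
      FS d a L := by
  have h1 := h.sum_log 0 L
  have e1 : od a 0 = 0 := rfl
  have e2 : FS d a 0 = 0 := by simp [FS]
  rw [zero_add, e1, e2] at h1
  simp only [Nat.cast_zero, sub_zero] at h1
  exact h1

theorem fc_nonneg (d z : ℤ) : 0 ≤ fc d z := by
  unfold fc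
  split_ifs
  · positivity
  · exact le_rfl

theorem pow_bound {a : ℕ → ℤ} {p : ℕ} (h : Orb q d a p N) (j : ℕ) :
    |(a j : ℝ)| ≤ q ^ j * |(a 0 : ℝ)| := by
  have hq3 : (3 : ℝ) ≤ q := by exact_mod_cast h.q3
  induction j with
  | zero => simp
  | succ j ih =>
    calc |(a (j + 1) : ℝ)| ≤ q * |(a j : ℝ)| := h.le_mul j
      _ ≤ q * (q ^ j * |(a 0 : ℝ)|) := mul_le_mul_of_nonneg_left ih (by linarith)
      _ = _ := by ring

/-- the words which are not ascending -/
theorem desc_word {q : ℕ} {ν : ℝ → ℝ} (hν : Nu q ν) {L s ℓ : ℕ} (hL : 1 ≤ L) (hLl : L ≤ ℓ)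
    (hsL : s ≤ L) (h : ¬ ((L : ℝ) * Real.log 2 < s * Real.log q)) :
    (s : ℝ) * Real.log q + ν ℓ / 2 ≤ L * Real.log 2 := by
  have hl2 := log2_ge
  have hLR : (1 : ℝ) ≤ L := by exact_mod_cast hL
  have hlR : (1 : ℝ) ≤ ℓ := by exact_mod_cast hL.trans hLl
  have h1 := hν.le_one ℓ hlR
  have h2 := hν.pos ℓ hlR
  rcases Nat.eq_zero_or_pos s with rfl | hs
  · simp only [Nat.cast_zero, zero_mul, zero_add]
    nlinarith
  · have h3 := hν.low s L hs
    have h4 : ν ℓ ≤ ν s := hν.anti _ _ (by exact_mod_cast hs) (by exact_mod_cast hsL.trans hLl)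
    rw [not_lt] at h
    rw [abs_of_nonneg (by linarith)] at h3
    linarith

end

/-- the sum of the inverses of distinct natural numbers -/
theorem sum_inv_nat (A : Finset ℕ) : 0 ∉ A →
    ∑ a ∈ A, (1 / (a : ℝ)) ≤ ∑ k ∈ range A.card, (1 / ((k : ℝ) + 1)) := by
  induction A using Finset.induction_on_max with
  | empty => intro _; simp
  | insert a A hA ih =>
    intro h0
    have ha : a ∉ A := fun h => lt_irrefl _ (hA a h)
    rw [Finset.mem_insert, not_or] at h0
    rw [Finset.sum_insert ha, Finset.card_insert_of_notMem ha, Finset.sum_range_succ]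
    have h1 := ih h0.2
    have h2 : A ⊆ Finset.Icc 1 (a - 1) := by
      intro x hx
      rw [Finset.mem_Icc]
      have h3 := hA x hx
      have h4 : x ≠ 0 := fun h => h0.2 (h ▸ hx)
      omega
    have h3 := Finset.card_le_card h2
    rw [Nat.card_Icc] at h3
    have ha0 : 0 < a := by omega
    have h4 : (A.card : ℝ) + 1 ≤ a := by exact_mod_cast (by omega : A.card + 1 ≤ a)
    have h5 : 1 / (a : ℝ) ≤ 1 / ((A.card : ℝ) + 1) := one_div_le_one_div_of_le (by positivity) h4
    linarith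

theorem harm_le {n p : ℕ} (hnp : n ≤ p) (hp : 1 ≤ p) :
    ∑ k ∈ range n, (1 / ((k : ℝ) + 1)) ≤ 1 + Real.log p := by
  rcases Nat.eq_zero_or_pos n with rfl | hn
  · have : 0 ≤ Real.log p := Real.log_nonneg (by exact_mod_cast hp)
    simp; linarith
  have h1 := harmonic_le_one_add_log n
  have h2 : ((harmonic n : ℚ) : ℝ) = ∑ k ∈ range n, (1 / ((k : ℝ) + 1)) := by
    unfold harmonic
    push_cast
    simp
  rw [h2] at h1
  have h3 : Real.log n ≤ Real.log p := Real.log_le_log (by exact_mod_cast hn) (by exact_mod_cast hnp)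
  linarith

/-- the sum of the inverses of distinct integers -/
theorem sum_inv_int (Z : Finset ℤ) (h0 : (0 : ℤ) ∉ Z) (hZ : 1 ≤ Z.card) :
    ∑ x ∈ Z, (1 / |(x : ℝ)|) ≤ 2 * (1 + Real.log Z.card) := by
  classical
  have key : ∀ W ⊆ Z, Set.InjOn Int.natAbs (W : Set ℤ) →
      ∑ x ∈ W, (1 / |(x : ℝ)|) ≤ 1 + Real.log Z.card := by
    intro W hW hinj
    have h1 : ∑ x ∈ W, (1 / |(x : ℝ)|) = ∑ a ∈ W.image Int.natAbs, (1 / (a : ℝ)) := by
      rw [Finset.sum_image hinj]
      refine Finset.sum_congr rfl fun x _ => ?_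
      rw [Nat.cast_natAbs]
      push_cast
      rfl
    rw [h1]
    refine (sum_inv_nat _ ?_).trans (harm_le (p := Z.card) ?_ hZ)
    · rw [Finset.mem_image]
      rintro ⟨x, hx, h2⟩
      rw [Int.natAbs_eq_zero] at h2
      exact h0 (h2 ▸ hW hx)
    · exact Finset.card_image_le.trans (Finset.card_le_card hW)
  have h1 := key (Z.filter fun x => 0 < x) (Finset.filter_subset _ _) (by
    intro x hx y hy hxy
    have hx' := (Finset.mem_filter.1 (Finset.mem_coe.1 hx)).2
    have hy' := (Finset.mem_filter.1 (Finset.mem_coe.1 hy)).2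
    omega)
  have h2 := key (Z.filter fun x => ¬ 0 < x) (Finset.filter_subset _ _) (by
    intro x hx y hy hxy
    have hx' := (Finset.mem_filter.1 (Finset.mem_coe.1 hx)).2
    have hy' := (Finset.mem_filter.1 (Finset.mem_coe.1 hy)).2
    omega)
  rw [← Finset.sum_filter_add_sum_filter_not Z (fun x => 0 < x)]
  linarith

/-- the sum of the contributions over the cycle -/
theorem sum_fc {f : ℤ → ℤ} {d : ℤ} {Z : Finset ℤ} (hZ : IsCycle f Z) (h0 : (0 : ℤ) ∉ Z) {x0 : ℤ}
    (hx : x0 ∈ Z) :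
    FS d (fun i => f^[i] x0) Z.card ≤ |(d : ℝ)| * (2 * (1 + Real.log Z.card)) := by
  classical
  have hinj : Set.InjOn (fun i => f^[i] x0) ((range Z.card : Finset ℕ) : Set ℕ) := by
    intro i hi j hj hij
    rw [mem_coe, mem_range, hZ.card_eq hx] at hi hj
    exact (Function.iterate_eq_iterate_iff_of_lt_minimalPeriod hi hj).1 hij
  have hsub : (range Z.card).image (fun i => f^[i] x0) ⊆ Z := by
    intro y hy
    obtain ⟨i, -, rfl⟩ := Finset.mem_image.1 hy
    exact hZ.closed hx i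
  unfold FS
  calc ∑ i ∈ range Z.card, fc d (f^[i] x0)
      = ∑ x ∈ (range Z.card).image (fun i => f^[i] x0), fc d x := by
        rw [Finset.sum_image hinj]
    _ ≤ ∑ x ∈ Z, fc d x :=
        Finset.sum_le_sum_of_subset_of_nonneg hsub fun x _ _ => fc_nonneg d x
    _ ≤ ∑ x ∈ Z, |(d : ℝ)| * (1 / |(x : ℝ)|) := by
        refine Finset.sum_le_sum fun x _ => ?_
        unfold fc
        split_ifs
        · rw [mul_one_div]
        · positivity
    _ = |(d : ℝ)| * ∑ x ∈ Z, (1 / |(x : ℝ)|) := by rw [Finset.mul_sum]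
    _ ≤ _ := mul_le_mul_of_nonneg_left
        (sum_inv_int Z h0 (Finset.card_pos.2 hZ.nonempty)) (abs_nonneg _)

end Pool.Agent.H26.CU
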