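import Mathlib
import Pool.Agent.H15.Asc.NuP
import Pool.Agent.H26.CU.Orb

set_option autoImplicit false

/-!
The number of turns of a cycle with marked elements.
-/

namespace Pool.Agent.H26.CU

open Finset
open Pool.Agent.H15.Asc (T IsCycle Orb od fc FS par Nu finite_small)

section
variable {q : ℕ} {d : ℤ} {Z S : Finset ℤ} {ℓ : ℕ} {N : ℝ}

/-- the marked elements, one after the other -/
noncomputable def xs (f : ℤ → ℤ) (S : Finset ℤ) (x0 : ℤ) (i : ℕ) : ℤ := (nxt f S)^[i] x0

theorem xs_succ (f : ℤ → ℤ) (S : Finset ℤ) (x0 : ℤ) (i : ℕ) :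
    xs f S x0 (i + 1) = f^[gap f S (xs f S x0 i)] (xs f S x0 i) :=
  Function.iterate_succ_apply' _ _ _

theorem xs_mem {f : ℤ → ℤ} (hSZ : S ⊆ Z) (h : Within f Z S ℓ) {x0 : ℤ} (h0 : x0 ∈ S) (i : ℕ) :
    xs f S x0 i ∈ S := by
  induction i with
  | zero => exact h0
  | succ i ih => rw [xs_succ]; exact (gap_spec h (hSZ ih)).2.2

/-- the times of the marked elements -/
noncomputable def tm (f : ℤ → ℤ) (S : Finset ℤ) (x0 : ℤ) (i : ℕ) : ℕ :=
  ∑ j ∈ range i, gap f S (xs f S x0 j)

theorem tm_succ (f : ℤ → ℤ) (S : Finset ℤ) (x0 : ℤ) (i : ℕ) :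
    tm f S x0 (i + 1) = tm f S x0 i + gap f S (xs f S x0 i) := Finset.sum_range_succ _ _

theorem iterate_tm (f : ℤ → ℤ) (S : Finset ℤ) (x0 : ℤ) (i : ℕ) :
    f^[tm f S x0 i] x0 = xs f S x0 i := by
  induction i with
  | zero => rfl
  | succ i ih => rw [tm_succ, add_comm, Function.iterate_add_apply, ih, xs_succ]

theorem tm_mono {f : ℤ → ℤ} (hSZ : S ⊆ Z) (h : Within f Z S ℓ) {x0 : ℤ} (h0 : x0 ∈ S) :
    StrictMono (tm f S x0) := by
  apply strictMono_nat_of_lt_succ
  intro i
  rw [tm_succ]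
  have := (gap_spec h (hSZ (xs_mem hSZ h h0 i))).1
  omega

theorem exists_period {f : ℤ → ℤ} (hZ : IsCycle f Z) (hSZ : S ⊆ Z) (h : Within f Z S ℓ) {x0 : ℤ}
    (h0 : x0 ∈ S) : ∃ n, tm f S x0 n = Z.card := by
  classical
  have hmono := tm_mono hSZ h h0
  have hex : ∃ m, Z.card < tm f S x0 m := ⟨Z.card + 1, hmono.le_apply.trans_lt' (by omega)⟩
  have hp := Nat.find_spec hex
  rcases hfm : Nat.find hex with _ | n
  · rw [hfm] at hp
    simp [tm] at hp
  · rw [hfm] at hp
    have h1 : tm f S x0 n ≤ Z.card := by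
      by_contra hcon
      have := Nat.find_min' hex (not_le.1 hcon)
      omega
    refine ⟨n, ?_⟩
    by_contra hne
    have h2 : tm f S x0 n < Z.card := lt_of_le_of_ne h1 hne
    rw [tm_succ] at hp
    apply not_mem_of_lt_gap (f := f) (S := S) (y := xs f S x0 n) (j := Z.card - tm f S x0 n)
      (by omega) (by omega)
    rw [← iterate_tm, ← Function.iterate_add_apply, show Z.card - tm f S x0 n + tm f S x0 n = Z.card
      by omega, hZ.card_eq (hSZ h0), Function.iterate_minimalPeriod]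
    exact h0

theorem xs_inj {f : ℤ → ℤ} (hZ : IsCycle f Z) (hSZ : S ⊆ Z) (h : Within f Z S ℓ) {x0 : ℤ}
    (h0 : x0 ∈ S) {n : ℕ} (hn : tm f S x0 n = Z.card) :
    Set.InjOn (xs f S x0) ((range n : Finset ℕ) : Set ℕ) := by
  have hmono := tm_mono hSZ h h0
  intro i hi j hj hij
  rw [mem_coe, mem_range] at hi hj
  rw [← iterate_tm, ← iterate_tm] at hij
  have e := hZ.card_eq (hSZ h0)
  have h1 : tm f S x0 i < Function.minimalPeriod f x0 := by rw [← e, ← hn]; exact hmono hi
  have h2 : tm f S x0 j < Function.minimalPeriod f x0 := by rw [← e, ← hn]; exact hmono hj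
  exact hmono.injective ((Function.iterate_eq_iterate_iff_of_lt_minimalPeriod h1 h2).1 hij)

/-- the equation of a run -/
theorem run_eq (hq : (q : ℤ) % 2 = 1) (hd : d % 2 = 1) (x0 : ℤ) (i m : ℕ)
    (h : ∀ t ≤ m, word (T q d) S (xs (T q d) S x0 (i + t)) = word (T q d) S (xs (T q d) S x0 i)) :
    (2 ^ gap (T q d) S (xs (T q d) S x0 i)) ^ m *
      (xs (T q d) S x0 (i + m) - xs (T q d) S x0 (i + m + 1)) =
    ((q : ℤ) ^ (word (T q d) S (xs (T q d) S x0 i)).count 1) ^ m *
      (xs (T q d) S x0 i - xs (T q d) S x0 (i + 1)) := by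
  induction m with
  | zero => simp
  | succ m ih =>
    have ih := ih fun t ht => h t (by omega)
    have h1 := h m (by omega)
    have h2 := h (m + 1) le_rfl
    obtain ⟨g1, -⟩ := word_eq h1
    obtain ⟨g2, -⟩ := word_eq h2
    obtain ⟨-, g3⟩ := word_eq (h1.trans h2.symm)
    have h3 := same_word hq hd _ _ _ g3
    rw [← word_count] at h3
    have e1 : ((List.range (gap (T q d) S (xs (T q d) S x0 (i + m)))).map
        fun j => (T q d)^[j] (xs (T q d) S x0 (i + m)) % 2) =
        word (T q d) S (xs (T q d) S x0 (i + m)) := rfl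
    rw [e1, h1, g1] at h3
    have e2 : (T q d)^[gap (T q d) S (xs (T q d) S x0 i)] (xs (T q d) S x0 (i + m)) =
        xs (T q d) S x0 (i + m + 1) := by rw [xs_succ, g1]
    have e3 : (T q d)^[gap (T q d) S (xs (T q d) S x0 i)] (xs (T q d) S x0 (i + (m + 1))) =
        xs (T q d) S x0 (i + (m + 1) + 1) := by
      rw [xs_succ (T q d) S x0 (i + (m + 1)), g2]
    rw [e2, e3] at h3
    have e4 : i + (m + 1) = i + m + 1 := by ring
    rw [e4] at h3 ⊢
    rw [pow_succ, pow_succ]
    linear_combination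
      (2 ^ gap (T q d) S (xs (T q d) S x0 i)) ^ m * h3 +
      (q : ℤ) ^ (word (T q d) S (xs (T q d) S x0 i)).count 1 * ih

/-- the constant -/
noncomputable def cc (q ℓ : ℕ) : ℝ := (ℓ + 1) * Real.log 2 + ℓ * Real.log q

/-- the errors -/
noncomputable def eps (f : ℤ → ℤ) (S : Finset ℤ) (d : ℤ) (x0 : ℤ) (i : ℕ) : ℝ :=
  FS d (fun j => f^[j] (xs f S x0 i)) (gap f S (xs f S x0 i))

theorem Er_eps (f : ℤ → ℤ) (S : Finset ℤ) (d : ℤ) (x0 : ℤ) (n : ℕ) :
    Er (eps f S d x0) n = FS d (fun i => f^[i] x0) (tm f S x0 n) := by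
  induction n with
  | zero => simp [Er, FS, tm]
  | succ n ih =>
    rw [Er_succ, ih, tm_succ]
    unfold eps FS
    rw [Finset.sum_range_add]
    congr 1
    refine Finset.sum_congr rfl fun j _ => ?_
    have e : f^[tm f S x0 n + j] x0 = f^[j] (xs f S x0 n) := by
      rw [add_comm (tm f S x0 n) j, Function.iterate_add_apply, iterate_tm]
    change fc d (f^[j] (xs f S x0 n)) = fc d (f^[tm f S x0 n + j] x0)
    rw [e]

theorem eps_nonneg (f : ℤ → ℤ) (S : Finset ℤ) (d : ℤ) (x0 : ℤ) (i : ℕ) : 0 ≤ eps f S d x0 i := by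
  unfold eps FS
  exact Finset.sum_nonneg fun j _ => fc_nonneg _ _

/-- **The chain of the marked elements.** -/
theorem chain_of {ν : ℝ → ℝ} (hν : Nu q ν) (hZ : IsCycle (T q d) Z) (hq3 : 3 ≤ q)
    (hq : (q : ℤ) % 2 = 1) (hd : d % 2 = 1)
    (hbig : ∀ x ∈ Z, 10 * |(d : ℝ)| ≤ |(x : ℝ)|) (hSZ : S ⊆ Z)
    (hW : Within (T q d) Z S ℓ) (hl : ℓ < Z.card) {x0 : ℤ} (h0 : x0 ∈ S) :
    Chain (q : ℝ) (cc q ℓ) (ν ℓ / 2) (Real.log q / Real.log 2) ℓ
      (fun i => word (T q d) S (xs (T q d) S x0 i))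
      (fun i => gap (T q d) S (xs (T q d) S x0 i))
      (fun i => (word (T q d) S (xs (T q d) S x0 i)).count 1)
      (fun i => Real.log |(xs (T q d) S x0 i : ℝ)|) (eps (T q d) S d x0) := by
  have hmem : ∀ i, xs (T q d) S x0 i ∈ Z := fun i => hSZ (xs_mem hSZ hW h0 i)
  have hq3Z : (3 : ℤ) ≤ q := by exact_mod_cast hq3
  have horb : ∀ i, Orb (q : ℤ) d (fun j => (T q d)^[j] (xs (T q d) S x0 i)) Z.card 10 := fun i =>
    orb_of hZ hq3Z hq hd le_rfl hbig (hmem i)
  have hod : ∀ i, (word (T q d) S (xs (T q d) S x0 i)).count 1 =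
      od (fun j => (T q d)^[j] (xs (T q d) S x0 i)) (gap (T q d) S (xs (T q d) S x0 i)) := fun i =>
    word_count _ _ _
  have hcast : (((q : ℤ) : ℝ)) = (q : ℝ) := by norm_cast
  have hq3R : (3 : ℝ) ≤ q := by exact_mod_cast hq3
  have hlq : 0 ≤ Real.log q := Real.log_nonneg (by linarith)
  have hl2 := log2_ge
  have hlen : ∀ i, (word (T q d) S (xs (T q d) S x0 i)).count 1 ≤
      gap (T q d) S (xs (T q d) S x0 i) := fun i => by
    rw [← word_length (f := T q d) (S := S)]
    exact List.count_le_length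
  have hl1 : (1 : ℝ) ≤ ℓ := by
    have h1 := gap_spec hW (hmem 0)
    exact_mod_cast h1.1.trans h1.2.1
  have hν1 := hν.le_one ℓ hl1
  have hν0 := hν.pos ℓ hl1
  refine ⟨hq3R, fun i => (gap_spec hW (hmem i)).1, fun i => (gap_spec hW (hmem i)).2.1, hlen,
    fun i j hij => ⟨(word_eq hij).1, by rw [hij]⟩,
    fun i => eps_nonneg _ _ _ _ i, fun i => ?_, fun i m hm => ?_,
    fun i hi => ?_, by linarith, by linarith, le_rfl⟩
  · have h1 := log_block (horb i) (gap (T q d) S (xs (T q d) S x0 i))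
    simp only [Function.iterate_zero, id, hcast] at h1
    rw [xs_succ, hod i]
    exact h1
  · -- the length of a run
    have hten : (10 : ℝ) ≤ |(xs (T q d) S x0 i : ℝ)| := by
      have h1 := (horb i).ten 0
      have h2 := (horb i).d1
      simp only [Function.iterate_zero, id] at h1
      linarith
    have hD : 0 ≤ Real.log |(xs (T q d) S x0 i : ℝ)| := Real.log_nonneg (by linarith)
    have hcc : 0 ≤ cc q ℓ := by unfold cc; positivity
    rcases m with _ | m
    · simp only [Nat.cast_zero, zero_mul]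
      linarith
    · have h1 := run_eq (S := S) hq hd x0 i m fun t ht => hm t (by omega)
      set L := gap (T q d) S (xs (T q d) S x0 i) with hLd
      set X := xs (T q d) S x0 i with hX
      have hLl : L ≤ ℓ := (gap_spec hW (hmem i)).2.1
      have hL1 : 1 ≤ L := (gap_spec hW (hmem i)).1
      have hne : X - xs (T q d) S x0 (i + 1) ≠ 0 := by
        intro h2
        rw [xs_succ, sub_eq_zero] at h2
        have h3 : Function.minimalPeriod (T q d) X ≤ L :=
          Function.IsPeriodicPt.minimalPeriod_le (by omega) h2.symm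
        rw [← hZ.card_eq (hmem i)] at h3
        omega
      have hdvd : ((2 : ℤ) ^ L) ^ m ∣ X - xs (T q d) S x0 (i + 1) := by
        have h2 : ((2 : ℤ) ^ L) ^ m ∣ ((q : ℤ) ^ (word (T q d) S X).count 1) ^ m *
            (X - xs (T q d) S x0 (i + 1)) := by rw [← h1]; exact dvd_mul_right _ _
        refine IsCoprime.dvd_of_dvd_mul_left ?_ h2
        refine IsCoprime.pow (IsCoprime.pow ?_)
        rw [Int.isCoprime_iff_gcd_eq_one]
        have h3 : ¬ (2 : ℤ) ∣ q := by omega
        have h4 := Int.isCoprime_iff_gcd_eq_one.1 ((Prime.coprime_iff_not_dvd Int.prime_two).2 h3)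
        exact h4
      have habs : ((2 : ℤ) ^ L) ^ m ≤ |X - xs (T q d) S x0 (i + 1)| :=
        Int.le_of_dvd (abs_pos.2 hne) ((dvd_abs _ _).2 hdvd)
      have habsR : ((2 : ℝ) ^ L) ^ m ≤ |(X : ℝ) - xs (T q d) S x0 (i + 1)| := by exact_mod_cast habs
      have hnext : |(xs (T q d) S x0 (i + 1) : ℝ)| ≤ q ^ ℓ * |(X : ℝ)| := by
        have h2 := pow_bound (horb i) L
        simp only [Function.iterate_zero, id, hcast] at h2
        rw [xs_succ]
        refine h2.trans ?_
        exact mul_le_mul_of_nonneg_right (pow_le_pow_right₀ (by linarith) hLl) (abs_nonneg _)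
      have hqe : (1 : ℝ) ≤ (q : ℝ) ^ ℓ := one_le_pow₀ (by linarith)
      have hsum : ((2 : ℝ) ^ L) ^ m ≤ 2 * q ^ ℓ * |(X : ℝ)| := by
        have h2 := abs_sub (X : ℝ) (xs (T q d) S x0 (i + 1))
        nlinarith [abs_nonneg (X : ℝ)]
      have hlog := Real.log_le_log (by positivity) hsum
      rw [Real.log_pow, Real.log_pow, Real.log_mul (by positivity) (by linarith),
        Real.log_mul (by norm_num) (by positivity), Real.log_pow] at hlog
      have hL2 : (L : ℝ) * Real.log 2 ≤ ℓ * Real.log 2 :=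
        mul_le_mul_of_nonneg_right (by exact_mod_cast hLl) (by linarith)
      push_cast
      unfold cc
      nlinarith
  · exact desc_word hν (gap_spec hW (hmem i)).1 (gap_spec hW (hmem i)).2.1 (hlen i) hi

/-- the ends of the runs are turns -/
theorem En_le_turns (hZ : IsCycle (T q d) Z) (hq3 : 3 ≤ q) (hSZ : S ⊆ Z)
    (hW : Within (T q d) Z S ℓ) {x0 : ℤ} (h0 : x0 ∈ S) {n : ℕ}
    (hn : tm (T q d) S x0 n = Z.card) :
    En (q : ℝ) (fun i => word (T q d) S (xs (T q d) S x0 i))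
      (fun i => gap (T q d) S (xs (T q d) S x0 i))
      (fun i => (word (T q d) S (xs (T q d) S x0 i)).count 1) n ≤ (turns q (T q d) S).card := by
  classical
  have hq0 : (0 : ℝ) < q := by exact_mod_cast (by omega : 0 < q)
  refine En_le_card (xs (T q d) S x0) _ _ _ _ _ _ ?_ ?_
  · intro j _ h1 h2
    unfold turns
    rw [mem_filter]
    refine ⟨xs_mem hSZ hW h0 j, ?_, ?_⟩
    · unfold Ascending
      rw [word_length]
      unfold Asc at h1
      rw [← Real.log_pow, ← Real.log_pow, Real.log_lt_log_iff (by positivity) (by positivity)] at h1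
      exact_mod_cast h1
    · have e : nxt (T q d) S (xs (T q d) S x0 j) = xs (T q d) S x0 (j + 1) :=
        (Function.iterate_succ_apply' _ _ _).symm
      rw [e]
      exact h2
  · intro i hi j hj hij
    exact xs_inj hZ hSZ hW h0 hn (mem_coe.2 (mem_range.2 hi)) (mem_coe.2 (mem_range.2 hj)) hij

/-- **The element of least absolute value.** -/
theorem min_le {ν : ℝ → ℝ} (hν : Nu q ν) (hZ : IsCycle (T q d) Z) (hq3 : 3 ≤ q)
    (hq : (q : ℤ) % 2 = 1) (hd : d % 2 = 1) (hN : 10 ≤ N)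
    (hbig : ∀ x ∈ Z, N * |(d : ℝ)| ≤ |(x : ℝ)|) {z : ℤ} (hz : z ∈ Z)
    (hmin : ∀ x ∈ Z, |(z : ℝ)| ≤ |(x : ℝ)|) :
    |(z : ℝ)| * ν Z.card ≤ |(d : ℝ)| * Z.card := by
  have hq3Z : (3 : ℤ) ≤ q := by exact_mod_cast hq3
  have h := orb_of hZ hq3Z hq hd hN hbig hz
  have hcast : (((q : ℤ) : ℝ)) = (q : ℝ) := by norm_cast
  have hd1 := h.d1
  have h10 : (10 : ℝ) ≤ |(z : ℝ)| := by
    have h1 := h.ten 0
    simp only [Function.iterate_zero, id] at h1
    linarith
  have hl2 := log2_ge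
  have hp : 1 ≤ Z.card := h.pos
  have hpR : (1 : ℝ) ≤ Z.card := by exact_mod_cast hp
  set p := Z.card with hpd
  set K := od (fun i => (T q d)^[i] z) p with hK
  have hper : (T q d)^[p] z = z := by
    rw [hpd, hZ.card_eq hz]
    exact Function.iterate_minimalPeriod
  have h1 := h.sum_log 0 p
  have e1 : od (fun i => (T q d)^[i] z) 0 = 0 := rfl
  have e2 : FS d (fun i => (T q d)^[i] z) 0 = 0 := by simp [FS]
  rw [zero_add, e1, e2, ← hK] at h1
  simp only [Function.iterate_zero, id, hcast, hper, Nat.cast_zero, sub_zero, sub_self,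
    zero_add] at h1
  have hFS : FS d (fun i => (T q d)^[i] z) p ≤ p * (|(d : ℝ)| / |(z : ℝ)|) := by
    unfold FS
    calc ∑ i ∈ range p, fc d ((T q d)^[i] z) ≤ ∑ _i ∈ range p, |(d : ℝ)| / |(z : ℝ)| := by
          refine Finset.sum_le_sum fun i _ => ?_
          unfold fc
          split_ifs
          · exact div_le_div_of_nonneg_left (by linarith) (by linarith) (hmin _ (hZ.closed hz i))
          · positivity
      _ = _ := by simp
  have hKp : K ≤ p := by
    have : ∀ j, od (fun i => (T q d)^[i] z) j ≤ j := by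
      intro j
      induction j with
      | zero => simp [od]
      | succ j ih =>
        have e : od (fun i => (T q d)^[i] z) (j + 1) =
          od (fun i => (T q d)^[i] z) j + ((T q d)^[j] z % 2).toNat := rfl
        rw [e]
        rcases par ((T q d)^[j] z) with h3 | h3 <;> rw [h3] <;> simp <;> omega
    exact this p
  have hK1 : 1 ≤ K := by
    by_contra hcon
    have hK0 : K = 0 := by omega
    have h2 := h.sum_log 0 p
    have h3 : FS d (fun i => (T q d)^[i] z) p ≤ p / N := by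
      have h6 := h.N10
      have h7 : |(d : ℝ)| / |(z : ℝ)| ≤ 1 / N := by
        rw [div_le_div_iff₀ (by linarith) (by linarith)]
        have := hbig z hz
        linarith
      calc FS d (fun i => (T q d)^[i] z) p ≤ p * (|(d : ℝ)| / |(z : ℝ)|) := hFS
        _ ≤ p * (1 / N) := mul_le_mul_of_nonneg_left h7 (by positivity)
        _ = p / N := by ring
    rw [hK0] at h1
    simp only [Nat.cast_zero, zero_mul, sub_zero] at h1
    have h4 : (p : ℝ) * Real.log 2 ≤ p / N := ((le_abs_self _).trans h1).trans h3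
    have h5 : (p : ℝ) / N ≤ p / 10 := div_le_div_of_nonneg_left (by linarith) (by norm_num) hN
    nlinarith
  have h2 := hν.low K p hK1
  have h3 : ν p ≤ ν K := hν.anti _ _ (by exact_mod_cast hK1) (by exact_mod_cast hKp)
  have h4 : ν p ≤ p * (|(d : ℝ)| / |(z : ℝ)|) := (h3.trans h2).trans (h1.trans hFS)
  have h5 : |(z : ℝ)| * ν p ≤ |(z : ℝ)| * (p * (|(d : ℝ)| / |(z : ℝ)|)) :=
    mul_le_mul_of_nonneg_left h4 (by linarith)
  have h6 : |(z : ℝ)| * (p * (|(d : ℝ)| / |(z : ℝ)|)) = |(d : ℝ)| * p := by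
    have : |(z : ℝ)| ≠ 0 := by linarith
    field_simp
  linarith

end

end Pool.Agent.H26.CU
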