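import Mathlib
import Pool.Agent.H15.Asc.Nu3
import Pool.Agent.H26.CU.Fin

set_option autoImplicit false

/-!
The number of turns of a cycle.
-/

namespace Pool.Agent.H26.CU

open Finset
open Pool.Agent.H15.Asc (T IsCycle Nu nu3 nu3_Nu nuE nuE_low nuE_Nu finite_small)

/-- `log (1 + y) ≤ ε y + C` -/
theorem log_le_lin {ε y : ℝ} (hε : 0 < ε) (hy : 0 ≤ y) :
    Real.log (1 + y) ≤ ε * y + (ε - Real.log ε) := by
  have h1 := Real.log_le_sub_one_of_pos (show 0 < ε * (1 + y) by positivity)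
  rw [Real.log_mul hε.ne' (by positivity)] at h1
  nlinarith

/-- the real inequality -/
theorem final_real {c κ : ℝ} (hc : 0 < c) (hκ : 1 < κ) (hcκ : c * Real.log κ < 1) :
    ∃ C : ℝ, ∀ (p A : ℕ) (K : ℝ), 1 ≤ p → 1 ≤ K →
      (p : ℝ) ≤ K * ((A + 1 : ℕ) * (κ ^ (A + 1) * (1 + Real.log p) ^ 2)) →
      c * Real.log p ≤ A + C + 2 * c * Real.log K := by
  have hlκ : 0 < Real.log κ := Real.log_pos hκ
  set η : ℝ := 1 - c * Real.log κ with hη
  have hη0 : 0 < η := by linarith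
  have hη1 : η < 1 := by
    have : 0 < c * Real.log κ := by positivity
    linarith
  have hcη : 0 < η / (2 * c) := by positivity
  set e1 : ℝ := η / 4 - Real.log (η / 4) with he1
  set e2 : ℝ := η / (2 * c) - Real.log (η / (2 * c)) with he2
  set R : ℝ := 2 * |e1| + |e2| with hR
  have hRn : 0 ≤ R := by positivity
  refine ⟨1 + c / (1 - η / 2) * R, fun p A K hp hK h => ?_⟩
  have hpR : (1 : ℝ) ≤ p := by exact_mod_cast hp
  set y := Real.log p with hy
  have hy0 : 0 ≤ y := Real.log_nonneg hpR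
  have hlK : 0 ≤ Real.log K := Real.log_nonneg hK
  have hA0 : (0 : ℝ) ≤ A := Nat.cast_nonneg _
  have h1 : y ≤ Real.log K + Real.log (1 + A) + (A + 1) * Real.log κ +
      2 * Real.log (1 + y) := by
    have h2 := Real.log_le_log (by linarith) h
    have e : K * (((A + 1 : ℕ) : ℝ) * (κ ^ (A + 1) * (1 + y) ^ 2)) =
        K * ((1 + A) * (κ ^ (A + 1) * (1 + y) ^ 2)) := by push_cast; ring
    have e3 : Real.log (K * ((1 + A) * (κ ^ (A + 1) * (1 + y) ^ 2))) = Real.log K +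
        (Real.log (1 + A) + (((A + 1 : ℕ) : ℝ) * Real.log κ + 2 * Real.log (1 + y))) := by
      rw [Real.log_mul (by positivity : K ≠ 0) (by positivity),
        Real.log_mul (by positivity : (1 + (A : ℝ)) ≠ 0) (by positivity),
        Real.log_mul (by positivity : κ ^ (A + 1) ≠ 0) (by positivity), Real.log_pow,
        Real.log_pow]
      norm_num
    rw [e, e3] at h2
    push_cast at h2
    linarith
  have h2 := log_le_lin (show 0 < η / 4 by positivity) hy0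
  have h3 := log_le_lin hcη hA0
  have h4 : y * (1 - η / 2) ≤ Real.log K + R + η / (2 * c) * (A + 1) + (A + 1) * Real.log κ := by
    have h6 := le_abs_self e1
    have h7 := le_abs_self e2
    nlinarith
  have h5 : 0 < 1 - η / 2 := by linarith
  have h6 : c / (1 - η / 2) * (y * (1 - η / 2)) ≤
      c / (1 - η / 2) * (Real.log K + R + η / (2 * c) * (A + 1) + (A + 1) * Real.log κ) :=
    mul_le_mul_of_nonneg_left h4 (by positivity)
  have h52 : (2 - η) ≠ 0 := (by linarith : (0 : ℝ) < 2 - η).ne'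
  have h7 : c / (1 - η / 2) * (y * (1 - η / 2)) = c * y := by
    have := h5.ne'
    rw [div_mul_eq_mul_div, div_eq_iff this]
    ring
  have h8 : c / (1 - η / 2) * (Real.log K + R + η / (2 * c) * (A + 1) + (A + 1) * Real.log κ) =
      c / (1 - η / 2) * R + c / (1 - η / 2) * Real.log K +
        (A + 1) * ((η / 2 + c * Real.log κ) / (1 - η / 2)) := by
    field_simp
    ring
  have h9 : (η / 2 + c * Real.log κ) / (1 - η / 2) = 1 := by
    rw [div_eq_one_iff_eq h5.ne']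
    rw [hη]
    ring
  have h10 : c / (1 - η / 2) ≤ 2 * c := by
    rw [div_le_iff₀ h5]
    nlinarith
  have h11 := mul_le_mul_of_nonneg_right h10 hlK
  rw [h7, h8, h9] at h6
  linarith

theorem logb_gt {q : ℕ} (hq3 : 3 ≤ q) : 1 < Real.log q / Real.log 2 := by
  have hl := log2_ge
  rw [lt_div_iff₀ (by linarith), one_mul]
  exact Real.log_lt_log (by norm_num) (by exact_mod_cast (by omega : 2 < q))

/-- the constant -/
noncomputable def KK (q : ℕ) (ν : ℝ → ℝ) (M : ℝ) (d : ℤ) (ℓ : ℕ) : ℝ :=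
  90 * Real.log q ^ 2 * M * |(d : ℝ)| * ((ℓ : ℝ) ^ 3 / ν ℓ)

/-- **Large elements.** -/
theorem big_case (q : ℕ) (hq3 : 3 ≤ q) (hq : (q : ℤ) % 2 = 1) {ν : ℝ → ℝ} (hν : Nu q ν) {M : ℝ}
    (hM : 1 ≤ M) (hνM : ∀ x, 1 ≤ x → -Real.log (ν x) ≤ M * (1 + Real.log x) ^ 2) {d : ℤ}
    (hd : d % 2 = 1) {Z S : Finset ℤ} {ℓ : ℕ} (hZ : IsCycle (T q d) Z) (hSZ : S ⊆ Z)
    (hW : Within (T q d) Z S ℓ) (hl : ℓ < Z.card)
    (hbig : ∀ x ∈ Z, 10 * |(d : ℝ)| ≤ |(x : ℝ)|) :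
    (Z.card : ℝ) ≤ KK q ν M d ℓ * (((turns q (T q d) S).card + 1 : ℕ) *
      ((Real.log q / Real.log 2) ^ ((turns q (T q d) S).card + 1) *
        (1 + Real.log Z.card) ^ 2)) := by
  have hq3R : (3 : ℝ) ≤ q := by exact_mod_cast hq3
  have hlq : 1 ≤ Real.log q := log3_ge.trans (Real.log_le_log (by norm_num) hq3R)
  have hl2 := log2_ge
  have hl2' : Real.log 2 ≤ 1 := by have := Real.log_two_lt_d9; linarith
  have hd1 : (1 : ℝ) ≤ |(d : ℝ)| := by
    have h1 : d ≠ 0 := by omega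
    exact_mod_cast Int.one_le_abs h1
  have hld : Real.log |(d : ℝ)| ≤ |(d : ℝ)| := by
    have := Real.log_le_sub_one_of_pos (show 0 < |(d : ℝ)| by linarith)
    linarith
  obtain ⟨z, hz, hmin'⟩ := Finset.exists_min_image Z (fun x => |x|) hZ.nonempty
  have hmin : ∀ x ∈ Z, |(z : ℝ)| ≤ |(x : ℝ)| := fun x hx => by exact_mod_cast hmin' x hx
  have h1 := min_le hν hZ hq3 hq hd le_rfl hbig hz hmin
  have h0Z : (0 : ℤ) ∉ Z := by
    intro h
    have := hbig 0 h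
    simp at this
    linarith
  set κ := Real.log q / Real.log 2 with hκ
  have hκ1 : 1 ≤ κ := (logb_gt hq3).le
  have hℓ1 : 1 ≤ ℓ := (gap_spec hW hz).1.trans (gap_spec hW hz).2.1
  have hℓR : (1 : ℝ) ≤ ℓ := by exact_mod_cast hℓ1
  have hνℓ := hν.pos ℓ hℓR
  -- the marked element
  set x0 := nxt (T q d) S z with hx0
  have hx0S : x0 ∈ S := (gap_spec hW hz).2.2
  have hEr0 := sum_fc (d := d) hZ h0Z (hSZ hx0S)
  have hch := chain_of hν hZ hq3 hq hd hbig hSZ hW hl hx0S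
  obtain ⟨n, hn⟩ := exists_period hZ hSZ hW hx0S
  have hE := En_le_turns hZ hq3 hSZ hW hx0S hn
  have hEr : Er (eps (T q d) S d x0) n ≤ |(d : ℝ)| * (2 * (1 + Real.log Z.card)) := by
    rw [Er_eps, hn]
    exact hEr0
  have hxn : xs (T q d) S x0 n = x0 := by
    rw [← iterate_tm, hn, hZ.card_eq (hSZ hx0S)]
    exact Function.iterate_minimalPeriod
  have hx00 : xs (T q d) S x0 0 = x0 := rfl
  set p := Z.card with hp
  have hp1 : 1 ≤ p := by omega
  have hpR : (1 : ℝ) ≤ p := by exact_mod_cast hp1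
  have hlp : 0 ≤ Real.log p := Real.log_nonneg hpR
  have hz10 : (10 : ℝ) ≤ |(z : ℝ)| := by
    have h2 := hbig z hz
    nlinarith
  have hcast : (((q : ℤ) : ℝ)) = (q : ℝ) := by norm_cast
  have hx0z : |(x0 : ℝ)| ≤ q ^ ℓ * |(z : ℝ)| := by
    have h2 := pow_bound (orb_of hZ (by exact_mod_cast hq3) hq hd le_rfl hbig hz) (gap (T q d) S z)
    simp only [Function.iterate_zero, id, hcast] at h2
    refine h2.trans (mul_le_mul_of_nonneg_right ?_ (abs_nonneg _))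
    exact pow_le_pow_right₀ (by linarith) (gap_spec hW hz).2.1
  have hx010 : (10 : ℝ) ≤ |(x0 : ℝ)| := hz10.trans (hmin x0 (hSZ hx0S))
  -- its logarithm
  have hlogz : Real.log |(z : ℝ)| ≤ |(d : ℝ)| + Real.log p + M * (1 + Real.log p) ^ 2 := by
    have h2 := Real.log_le_log (mul_pos (by linarith) (hν.pos _ hpR)) h1
    rw [Real.log_mul (by linarith) (hν.pos _ hpR).ne', Real.log_mul (by linarith) (by linarith)] at h2
    have h3 := hνM p hpR
    linarith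
  have hlogx0 : Real.log |(x0 : ℝ)| ≤ ℓ * Real.log q + Real.log |(z : ℝ)| := by
    have h2 := Real.log_le_log (by linarith) hx0z
    rw [Real.log_mul (by positivity) (by linarith), Real.log_pow] at h2
    exact h2
  have hcc : cc q ℓ ≤ 3 * (ℓ * Real.log q) := by
    unfold cc
    have h2 : ((ℓ : ℝ) + 1) * Real.log 2 ≤ (ℓ + 1) * 1 := mul_le_mul_of_nonneg_left hl2' (by linarith)
    have h3 : (ℓ : ℝ) * 1 ≤ ℓ * Real.log q := mul_le_mul_of_nonneg_left hlq (by linarith)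
    linarith
  have hcc0 : 0 ≤ cc q ℓ := by unfold cc; positivity
  set y := Real.log p with hy
  set b := |(d : ℝ)| with hb
  set Lq := Real.log q with hLq
  have hB : Real.log |(x0 : ℝ)| + cc q ℓ + Er (eps (T q d) S d x0) n ≤
      9 * (M * b * (ℓ * Lq)) * (1 + y) ^ 2 := by
    have e1 : (1 : ℝ) ≤ ℓ * Lq := by nlinarith
    have e2 : (1 : ℝ) ≤ M * b := by nlinarith
    have e3 : (ℓ : ℝ) * Lq ≤ M * b * (ℓ * Lq) := le_mul_of_one_le_left (by linarith) e2
    have e4 : M * b ≤ M * b * (ℓ * Lq) := le_mul_of_one_le_right (by linarith) e1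
    have e5 : b ≤ M * b := le_mul_of_one_le_left (by linarith) hM
    have e6 : M ≤ M * b := le_mul_of_one_le_right (by linarith) hd1
    have h2 : 1 + y ≤ (1 + y) ^ 2 := by nlinarith
    have h3 : (1 : ℝ) ≤ (1 + y) ^ 2 := by nlinarith
    have h4 : y ≤ (1 + y) ^ 2 := by linarith
    set X := M * b * (ℓ * Lq) with hX
    have f1 : Real.log |(x0 : ℝ)| + cc q ℓ + Er (eps (T q d) S d x0) n ≤
        4 * (ℓ * Lq) + b + y + M * (1 + y) ^ 2 + 2 * (b * (1 + y)) := by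
      linarith
    have f2 : 4 * ((ℓ : ℝ) * Lq) ≤ 4 * (X * (1 + y) ^ 2) := by
      have := le_mul_of_one_le_right (show 0 ≤ X by linarith) h3
      linarith
    have f3 : b ≤ X * (1 + y) ^ 2 := by
      have := le_mul_of_one_le_right (show 0 ≤ X by linarith) h3
      linarith
    have f4 : y ≤ X * (1 + y) ^ 2 := by
      have := le_mul_of_one_le_left (show 0 ≤ (1 + y) ^ 2 by positivity) (show 1 ≤ X by linarith)
      linarith
    have f5 : M * (1 + y) ^ 2 ≤ X * (1 + y) ^ 2 :=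
      mul_le_mul_of_nonneg_right (by linarith) (by positivity)
    have f6 : b * (1 + y) ≤ X * (1 + y) ^ 2 :=
      mul_le_mul (by linarith) h2 (by linarith) (by linarith)
    linarith
  -- the chain
  have htot := hch.total (n := n) (by simp only [hxn, hx00])
  simp only [hx00] at htot
  set E := En (q : ℝ) (fun i => word (T q d) S (xs (T q d) S x0 i))
      (fun i => gap (T q d) S (xs (T q d) S x0 i))
      (fun i => (word (T q d) S (xs (T q d) S x0 i)).count 1) n with hEd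
  have hsum : ∑ i ∈ range n, gap (T q d) S (xs (T q d) S x0 i) = p := hn
  rw [hsum] at htot
  set t := (turns q (T q d) S).card with ht
  have hErn : 0 ≤ Er (eps (T q d) S d x0) n := hch.Er_nonneg n
  have hB0 : 0 ≤ Real.log |(x0 : ℝ)| + cc q ℓ + Er (eps (T q d) S d x0) n := by
    have := Real.log_nonneg (show (1 : ℝ) ≤ |(x0 : ℝ)| by linarith)
    linarith
  have h5 : κ ^ (E + 1) ≤ κ ^ (t + 1) := pow_le_pow_right₀ hκ1 (by omega)
  have h6 : ((E + 1 : ℕ) : ℝ) ≤ (t + 1 : ℕ) := by exact_mod_cast (by omega)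
  have h7 : κ ^ (E + 1) * (Real.log |(x0 : ℝ)| + cc q ℓ + Er (eps (T q d) S d x0) n) ≤
      κ ^ (t + 1) * (9 * (M * b * (ℓ * Lq)) * (1 + y) ^ 2) :=
    mul_le_mul h5 hB hB0 (by positivity)
  have h8 : ((E + 1 : ℕ) : ℝ) * (κ ^ (E + 1) * (Real.log |(x0 : ℝ)| + cc q ℓ +
      Er (eps (T q d) S d x0) n)) ≤
      ((t + 1 : ℕ) : ℝ) * (κ ^ (t + 1) * (9 * (M * b * (ℓ * Lq)) * (1 + y) ^ 2)) :=
    mul_le_mul h6 h7 (mul_nonneg (by positivity) hB0) (by positivity)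
  have h9 : (0 : ℝ) ≤ ((t + 1 : ℕ) : ℝ) * (κ ^ (t + 1) * (9 * (M * b * (ℓ * Lq)) * (1 + y) ^ 2)) := by
    positivity
  have h10 : (ℓ : ℝ) / (ν ℓ / 2) * (3 + 2 * (ℓ * Lq)) ≤ 10 * ((ℓ : ℝ) ^ 2 * Lq) / ν ℓ := by
    have e1 : (1 : ℝ) ≤ ℓ * Lq := by nlinarith
    have e2 : 3 + 2 * ((ℓ : ℝ) * Lq) ≤ 5 * (ℓ * Lq) := by linarith
    have e3 : (ℓ : ℝ) / (ν ℓ / 2) = 2 * ℓ / ν ℓ := by field_simp
    rw [e3]
    calc 2 * (ℓ : ℝ) / ν ℓ * (3 + 2 * (ℓ * Lq)) ≤ 2 * ℓ / ν ℓ * (5 * (ℓ * Lq)) :=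
          mul_le_mul_of_nonneg_left e2 (by positivity)
      _ = _ := by ring
  calc (p : ℝ) ≤ (ℓ : ℝ) / (ν ℓ / 2) * (3 + 2 * (ℓ * Lq)) *
        (((E + 1 : ℕ) : ℝ) * (κ ^ (E + 1) * (Real.log |(x0 : ℝ)| + cc q ℓ +
          Er (eps (T q d) S d x0) n))) := htot
    _ ≤ (ℓ : ℝ) / (ν ℓ / 2) * (3 + 2 * (ℓ * Lq)) *
        (((t + 1 : ℕ) : ℝ) * (κ ^ (t + 1) * (9 * (M * b * (ℓ * Lq)) * (1 + y) ^ 2))) :=
      mul_le_mul_of_nonneg_left h8 (by positivity)
    _ ≤ 10 * ((ℓ : ℝ) ^ 2 * Lq) / ν ℓ *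
        (((t + 1 : ℕ) : ℝ) * (κ ^ (t + 1) * (9 * (M * b * (ℓ * Lq)) * (1 + y) ^ 2))) :=
      mul_le_mul_of_nonneg_right h10 h9
    _ = _ := by unfold KK; rw [← hLq, ← hb]; ring

/-- **The number of turns**, general form. -/
theorem turns_gen (q : ℕ) (hq3 : 3 ≤ q) (hq : (q : ℤ) % 2 = 1) {ν : ℝ → ℝ} (hν : Nu q ν) {M : ℝ}
    (hM : 1 ≤ M) (hνM : ∀ x, 1 ≤ x → -Real.log (ν x) ≤ M * (1 + Real.log x) ^ 2) (c : ℝ)
    (hc : c < 1 / Real.log (Real.log q / Real.log 2)) :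
    ∃ C1 : ℝ, 0 ≤ C1 ∧ ∀ d : ℤ, d % 2 = 1 → ∃ C2 : ℝ, ∀ (ℓ : ℕ) (Z S : Finset ℤ), 1 ≤ ℓ →
      IsCycle (T q d) Z → S ⊆ Z → Within (T q d) Z S ℓ →
      c * Real.log Z.card ≤ (turns q (T q d) S).card + C1 * (Real.log ℓ - Real.log (ν ℓ)) + C2 := by
  rcases le_or_gt c 0 with hc0 | hc0
  · refine ⟨0, le_rfl, fun d _ => ⟨0, fun ℓ Z S _ hZ _ _ => ?_⟩⟩
    have h1 : 1 ≤ Z.card := Finset.card_pos.2 hZ.nonempty
    have h2 : 0 ≤ Real.log Z.card := Real.log_nonneg (by exact_mod_cast h1)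
    have h3 : c * Real.log Z.card ≤ 0 := mul_nonpos_of_nonpos_of_nonneg hc0 h2
    have h4 : (0 : ℝ) ≤ (turns q (T q d) S).card := Nat.cast_nonneg _
    linarith
  have hq3R : (3 : ℝ) ≤ q := by exact_mod_cast hq3
  have hlq : 1 ≤ Real.log q := log3_ge.trans (Real.log_le_log (by norm_num) hq3R)
  have hκ := logb_gt hq3
  have hlκ := Real.log_pos hκ
  have hcκ : c * Real.log (Real.log q / Real.log 2) < 1 := by
    rwa [lt_div_iff₀ hlκ] at hc
  obtain ⟨C, hC⟩ := final_real hc0 hκ hcκ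
  refine ⟨6 * c, by positivity, fun d hd => ?_⟩
  have hd1 : (1 : ℝ) ≤ |(d : ℝ)| := by
    have h1 : d ≠ 0 := by omega
    exact_mod_cast Int.one_le_abs h1
  have hfin := finite_small (T q d) (10 * |(d : ℝ)|)
  obtain ⟨B, hB⟩ := (hfin.image fun Z => c * Real.log Z.card).bddAbove
  set K0 := 90 * Real.log q ^ 2 * M * |(d : ℝ)| with hK0
  have hK01 : 1 ≤ K0 := by
    have e1 : 1 ≤ Real.log q ^ 2 := one_le_pow₀ hlq
    have e2 : 1 ≤ Real.log q ^ 2 * M := by nlinarith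
    have e3 : 1 ≤ Real.log q ^ 2 * M * |(d : ℝ)| := by nlinarith
    have e4 : K0 = 90 * (Real.log q ^ 2 * M * |(d : ℝ)|) := by rw [hK0]; ring
    linarith
  have hlK0 := Real.log_nonneg hK01
  refine ⟨|B| + |C| + 2 * c * Real.log K0, fun ℓ Z S hℓ hZ hSZ hW => ?_⟩
  have h0 : (0 : ℝ) ≤ (turns q (T q d) S).card := Nat.cast_nonneg _
  have hℓR : (1 : ℝ) ≤ ℓ := by exact_mod_cast hℓ
  have hlℓ := Real.log_nonneg hℓR
  have hνℓ := hν.pos ℓ hℓR
  have hlν : Real.log (ν ℓ) ≤ 0 := Real.log_nonpos hνℓ.le (hν.le_one ℓ hℓR)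
  have hcard : 1 ≤ Z.card := Finset.card_pos.2 hZ.nonempty
  have hBa := le_abs_self B
  have hCa := le_abs_self C
  have hB0 := abs_nonneg B
  have hC0 := abs_nonneg C
  have hcK : 0 ≤ 2 * c * Real.log K0 := by positivity
  have hg : 0 ≤ 6 * c * (Real.log ℓ - Real.log (ν ℓ)) := by
    have : 0 ≤ Real.log ℓ - Real.log (ν ℓ) := by linarith
    positivity
  by_cases hs : ∃ x ∈ Z, |(x : ℝ)| < 10 * |(d : ℝ)|
  · have h1 := hB ⟨Z, ⟨hZ, hs⟩, rfl⟩
    simp only at h1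
    linarith
  · push Not at hs
    rcases Nat.lt_or_ge ℓ Z.card with hl | hl
    · have hνi : 1 ≤ (ℓ : ℝ) ^ 3 / ν ℓ := by
        rw [le_div_iff₀ hνℓ, one_mul]
        exact (hν.le_one ℓ hℓR).trans (one_le_pow₀ hℓR)
      have hKK : 1 ≤ KK q ν M d ℓ := by
        unfold KK
        rw [← hK0]
        nlinarith
      have h1 := hC Z.card (turns q (T q d) S).card (KK q ν M d ℓ) hcard hKK
        (big_case q hq3 hq hν hM hνM hd hZ hSZ hW hl hs)
      have h2 : Real.log (KK q ν M d ℓ) = Real.log K0 + (3 * Real.log ℓ - Real.log (ν ℓ)) := by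
        unfold KK
        rw [← hK0, Real.log_mul (by linarith) (by positivity), Real.log_div (by positivity) hνℓ.ne',
          Real.log_pow]
        norm_num
      rw [h2] at h1
      have h3 : 2 * c * (Real.log K0 + (3 * Real.log ℓ - Real.log (ν ℓ))) ≤
          2 * c * Real.log K0 + 6 * c * (Real.log ℓ - Real.log (ν ℓ)) := by
        have : 0 ≤ c * (-Real.log (ν ℓ)) := mul_nonneg hc0.le (by linarith)
        nlinarith
      linarith
    · have h1 : Real.log Z.card ≤ Real.log ℓ :=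
        Real.log_le_log (by exact_mod_cast hcard) (by exact_mod_cast hl)
      have h2 : c * Real.log Z.card ≤ c * Real.log ℓ := mul_le_mul_of_nonneg_left h1 hc0.le
      have h3 : c * Real.log ℓ ≤ 6 * c * (Real.log ℓ - Real.log (ν ℓ)) := by
        have : 0 ≤ c * (-Real.log (ν ℓ)) := mul_nonneg hc0.le (by linarith)
        have : 0 ≤ c * Real.log ℓ := mul_nonneg hc0.le hlℓ
        nlinarith
      linarith

end Pool.Agent.H26.CU
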