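import Mathlib
import Pool.Agent.H26.CU.Main

set_option autoImplicit false

/-!
The number of turns of a cycle: the theorems for `q = 3` and for odd primes `q`.
-/

namespace Pool.Agent.H26.CU

open Finset
open Pool.Agent.H15.Asc (T IsCycle Nu nu3 nu3_Nu nuE nuE_low nuE_Nu finite_small)

theorem nu3_log {x : ℝ} (hx : 1 ≤ x) :
    -Real.log (nu3 x) = 13 * Real.log 2 + 49 * Real.log 86 + 49 * Real.log x := by
  unfold nu3
  rw [one_div, Real.log_inv, neg_neg, Real.log_mul (by positivity) (by positivity), Real.log_pow,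
    Real.log_pow, Real.log_mul (by norm_num) (by linarith)]
  push_cast
  ring

/-- `q = 3` -/
theorem turns3 (c : ℝ) (hc : c < 1 / Real.log (Real.log 3 / Real.log 2)) :
    ∃ C1 : ℝ, 0 ≤ C1 ∧ ∀ d : ℤ, d % 2 = 1 → ∃ C2 : ℝ, ∀ (ℓ : ℕ) (Z S : Finset ℤ), 1 ≤ ℓ →
      IsCycle (T 3 d) Z → S ⊆ Z → Within (T 3 d) Z S ℓ →
      c * Real.log Z.card ≤ (turns 3 (T 3 d) S).card + C1 * Real.log ℓ + C2 := by
  have hl2 : 0 ≤ Real.log 2 := by linarith [log2_ge]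
  have hl86 : 0 ≤ Real.log 86 := Real.log_nonneg (by norm_num)
  set A : ℝ := 13 * Real.log 2 + 49 * Real.log 86 with hA
  have hA0 : 0 ≤ A := by positivity
  obtain ⟨C1, hC1, h⟩ := turns_gen 3 le_rfl (by norm_num) (ν := nu3) (by exact_mod_cast nu3_Nu)
    (M := A + 49) (by linarith) (fun x hx => by
      have h1 := Real.log_nonneg hx
      rw [nu3_log hx, ← hA]
      nlinarith [mul_nonneg hA0 h1, mul_nonneg hA0 (mul_nonneg h1 h1)]) c (by exact_mod_cast hc)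
  refine ⟨50 * C1, by positivity, fun d hd => ?_⟩
  obtain ⟨C2, h2⟩ := h d hd
  refine ⟨C1 * A + C2, fun ℓ Z S hℓ hZ hSZ hW => ?_⟩
  have h3 := h2 ℓ Z S hℓ (by exact_mod_cast hZ) hSZ (by exact_mod_cast hW)
  have h4 := nu3_log (show (1 : ℝ) ≤ ℓ by exact_mod_cast hℓ)
  have h5 : Real.log ℓ - Real.log (nu3 ℓ) = A + 50 * Real.log ℓ := by
    rw [hA]; linarith
  rw [h5] at h3
  push_cast at h3
  linarith

/-- odd primes -/
theorem turnsP (q : ℕ) (hq : q.Prime) (hq2 : q ≠ 2) (c : ℝ)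
    (hc : c < 1 / Real.log (Real.log q / Real.log 2)) :
    ∃ C1 : ℝ, 0 ≤ C1 ∧ ∀ d : ℤ, d % 2 = 1 → ∃ C2 : ℝ, ∀ (ℓ : ℕ) (Z S : Finset ℤ), 1 ≤ ℓ →
      IsCycle (T q d) Z → S ⊆ Z → Within (T q d) Z S ℓ →
      c * Real.log Z.card ≤ (turns q (T q d) S).card + C1 * Real.log ℓ ^ 2 + C2 := by
  obtain ⟨C0, hC0, hlow⟩ := nuE_low q hq hq2
  have hq3 : 3 ≤ q := by
    have := hq.two_le
    omega
  have hqodd : (q : ℤ) % 2 = 1 := by
    rcases hq.eq_two_or_odd with h | h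
    · exact absurd h hq2
    · omega
  obtain ⟨C1, hC1, h⟩ := turns_gen q hq3 hqodd (nuE_Nu hC0 hlow) hC0 (fun x hx => by
      unfold nuE
      rw [Real.log_exp, neg_neg]) c hc
  refine ⟨2 * (C0 + 1) * C1, by positivity, fun d hd => ?_⟩
  obtain ⟨C2, h2⟩ := h d hd
  refine ⟨2 * (C0 + 1) * C1 + C2, fun ℓ Z S hℓ hZ hSZ hW => ?_⟩
  have h3 := h2 ℓ Z S hℓ hZ hSZ hW
  have hℓ1 : (1 : ℝ) ≤ ℓ := by exact_mod_cast hℓ
  have hl := Real.log_nonneg hℓ1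
  have h4 : Real.log ℓ - Real.log (nuE C0 ℓ) ≤ 2 * (C0 + 1) * (Real.log ℓ ^ 2 + 1) := by
    unfold nuE
    rw [Real.log_exp]
    set y := Real.log ℓ
    have e1 : (1 + y) ^ 2 ≤ 2 * (y ^ 2 + 1) := by nlinarith [sq_nonneg (y - 1)]
    have e2 : C0 * (1 + y) ^ 2 ≤ C0 * (2 * (y ^ 2 + 1)) := mul_le_mul_of_nonneg_left e1 (by linarith)
    nlinarith [sq_nonneg (y - 1)]
  have h5 := mul_le_mul_of_nonneg_left h4 hC1
  linarith

/-- cycles of bounded length -/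
theorem finite_card (q : ℕ) (hq : q.Prime) (hq2 : q ≠ 2) (d : ℤ) (hd : d % 2 = 1) (P : ℝ) :
    {Z : Finset ℤ | IsCycle (T q d) Z ∧ (Z.card : ℝ) ≤ P}.Finite := by
  obtain ⟨C0, hC0, hlow⟩ := nuE_low q hq hq2
  have hν := nuE_Nu hC0 hlow
  have hq3 : 3 ≤ q := by
    have := hq.two_le
    omega
  have hqodd : (q : ℤ) % 2 = 1 := by
    rcases hq.eq_two_or_odd with h | h
    · exact absurd h hq2
    · omega
  refine (finite_small (T q d) (max (10 * |(d : ℝ)|) (|(d : ℝ)| * P / nuE C0 P + 1))).subset ?_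
  rintro Z ⟨hZ, hP⟩
  refine ⟨hZ, ?_⟩
  by_cases hs : ∃ x ∈ Z, |(x : ℝ)| < 10 * |(d : ℝ)|
  · obtain ⟨x, hx, h1⟩ := hs
    exact ⟨x, hx, h1.trans_le (le_max_left _ _)⟩
  · push Not at hs
    obtain ⟨z, hz, hmin'⟩ := Finset.exists_min_image Z (fun x => |x|) hZ.nonempty
    have hmin : ∀ x ∈ Z, |(z : ℝ)| ≤ |(x : ℝ)| := fun x hx => by exact_mod_cast hmin' x hx
    have h1 := min_le hν hZ hq3 hqodd hd le_rfl hs hz hmin
    refine ⟨z, hz, lt_of_lt_of_le ?_ (le_max_right _ _)⟩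
    have hcard : (1 : ℝ) ≤ Z.card := by exact_mod_cast Finset.card_pos.2 hZ.nonempty
    have h2 : nuE C0 P ≤ nuE C0 Z.card := hν.anti _ _ hcard hP
    have h3 : 0 < nuE C0 P := hν.pos _ (hcard.trans hP)
    have h4 : |(z : ℝ)| ≤ |(d : ℝ)| * P / nuE C0 P := by
      rw [le_div_iff₀ h3]
      calc |(z : ℝ)| * nuE C0 P ≤ |(z : ℝ)| * nuE C0 Z.card :=
            mul_le_mul_of_nonneg_left h2 (abs_nonneg _)
        _ ≤ |(d : ℝ)| * Z.card := h1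
        _ ≤ _ := mul_le_mul_of_nonneg_left hP (abs_nonneg _)
    linarith

/-- finiteness, `q = 3` -/
theorem fin3 (c : ℝ) (hc : c < 1 / Real.log (Real.log 3 / Real.log 2)) :
    ∃ η : ℝ, 0 < η ∧ ∀ d : ℤ, d % 2 = 1 → {Z : Finset ℤ | IsCycle (T 3 d) Z ∧
      ∃ S ⊆ Z, ∃ ℓ : ℕ, Within (T 3 d) Z S ℓ ∧ (ℓ : ℝ) ≤ (Z.card : ℝ) ^ η ∧
        ((turns 3 (T 3 d) S).card : ℝ) ≤ c * Real.log Z.card}.Finite := by
  obtain ⟨c', h1, h2⟩ := exists_between hc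
  obtain ⟨C1, hC1, h3⟩ := turns3 c' h2
  refine ⟨(c' - c) / (2 * (C1 + 1)), by have := sub_pos.2 h1; positivity, fun d hd => ?_⟩
  obtain ⟨C2, h4⟩ := h3 d hd
  refine (finite_card 3 Nat.prime_three (by norm_num) d hd
    (Real.exp (C2 / ((c' - c) / 2)))).subset ?_
  rintro Z ⟨hZ, S, hSZ, ℓ, hW, hℓ, ht⟩
  refine ⟨by exact_mod_cast hZ, ?_⟩
  have hcard : (1 : ℝ) ≤ Z.card := by exact_mod_cast Finset.card_pos.2 hZ.nonempty
  have hly := Real.log_nonneg hcard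
  obtain ⟨z, hz⟩ := hZ.nonempty
  have hℓ1 : 1 ≤ ℓ := (gap_spec hW hz).1.trans (gap_spec hW hz).2.1
  have h5 := h4 ℓ Z S hℓ1 hZ hSZ hW
  have h6 : Real.log ℓ ≤ (c' - c) / (2 * (C1 + 1)) * Real.log Z.card := by
    have h7 := Real.log_le_log (by exact_mod_cast hℓ1) hℓ
    rwa [Real.log_rpow (by linarith)] at h7
  have h7 : C1 * Real.log ℓ ≤ (c' - c) / 2 * Real.log Z.card := by
    have e1 : 0 ≤ Real.log (ℓ : ℝ) := Real.log_nonneg (by exact_mod_cast hℓ1)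
    calc C1 * Real.log ℓ ≤ (C1 + 1) * Real.log ℓ := by nlinarith
      _ ≤ (C1 + 1) * ((c' - c) / (2 * (C1 + 1)) * Real.log Z.card) :=
        mul_le_mul_of_nonneg_left h6 (by linarith)
      _ = _ := by field_simp
  rw [← Real.log_le_iff_le_exp (by linarith), le_div_iff₀ (by linarith)]
  nlinarith

/-- finiteness, odd primes -/
theorem finP (q : ℕ) (hq : q.Prime) (hq2 : q ≠ 2) (c : ℝ)
    (hc : c < 1 / Real.log (Real.log q / Real.log 2)) :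
    ∃ η : ℝ, 0 < η ∧ ∀ d : ℤ, d % 2 = 1 → {Z : Finset ℤ | IsCycle (T q d) Z ∧
      ∃ S ⊆ Z, ∃ ℓ : ℕ, Within (T q d) Z S ℓ ∧ (ℓ : ℝ) ≤ Real.exp (η * √(Real.log Z.card)) ∧
        ((turns q (T q d) S).card : ℝ) ≤ c * Real.log Z.card}.Finite := by
  obtain ⟨c', h1, h2⟩ := exists_between hc
  obtain ⟨C1, hC1, h3⟩ := turnsP q hq hq2 c' h2
  set η := √((c' - c) / (2 * (C1 + 1))) with hη
  have hpos : 0 < (c' - c) / (2 * (C1 + 1)) := by have := sub_pos.2 h1; positivity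
  refine ⟨η, Real.sqrt_pos.2 hpos, fun d hd => ?_⟩
  obtain ⟨C2, h4⟩ := h3 d hd
  refine (finite_card q hq hq2 d hd (Real.exp (C2 / ((c' - c) / 2)))).subset ?_
  rintro Z ⟨hZ, S, hSZ, ℓ, hW, hℓ, ht⟩
  refine ⟨hZ, ?_⟩
  have hcard : (1 : ℝ) ≤ Z.card := by exact_mod_cast Finset.card_pos.2 hZ.nonempty
  have hly := Real.log_nonneg hcard
  obtain ⟨z, hz⟩ := hZ.nonempty
  have hℓ1 : 1 ≤ ℓ := (gap_spec hW hz).1.trans (gap_spec hW hz).2.1
  have h5 := h4 ℓ Z S hℓ1 hZ hSZ hW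
  have e1 : 0 ≤ Real.log (ℓ : ℝ) := Real.log_nonneg (by exact_mod_cast hℓ1)
  have h6 : Real.log ℓ ≤ η * √(Real.log Z.card) := by
    have h7 := Real.log_le_log (by exact_mod_cast hℓ1) hℓ
    rwa [Real.log_exp] at h7
  have h7 : Real.log ℓ ^ 2 ≤ (c' - c) / (2 * (C1 + 1)) * Real.log Z.card := by
    calc Real.log ℓ ^ 2 ≤ (η * √(Real.log Z.card)) ^ 2 := pow_le_pow_left₀ e1 h6 2
      _ = η ^ 2 * √(Real.log Z.card) ^ 2 := by ring
      _ = _ := by rw [Real.sq_sqrt hly, hη, Real.sq_sqrt hpos.le]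
  have h8 : C1 * Real.log ℓ ^ 2 ≤ (c' - c) / 2 * Real.log Z.card := by
    calc C1 * Real.log ℓ ^ 2 ≤ (C1 + 1) * Real.log ℓ ^ 2 := by nlinarith [sq_nonneg (Real.log ℓ)]
      _ ≤ (C1 + 1) * ((c' - c) / (2 * (C1 + 1)) * Real.log Z.card) :=
        mul_le_mul_of_nonneg_left h7 (by linarith)
      _ = _ := by field_simp
  rw [← Real.log_le_iff_le_exp (by linarith), le_div_iff₀ (by linarith)]
  nlinarith

end Pool.Agent.H26.CU
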