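import Mathlib
import Pool.Agent.H26.CU.Last

set_option autoImplicit false

/-!
Cuttings of the trajectories of the `3x+1` map.
-/

namespace Pool.Agent.H26.CU

open Finset
open Pool.Agent.H15.Asc (T IsCycle od fc FS par Nu nu3 nu3_Nu T_even T_odd)

namespace Chain

variable {W : Type} {q c0 δ κ : ℝ} {ℓ : ℕ} {w : ℕ → W} {L s : ℕ → ℕ} {D ε : ℕ → ℝ}

/-- **The number of elements against the number of runs** (no periodicity). -/
theorem total' (h : Chain q c0 δ κ ℓ w L s D ε) (n : ℕ) :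
    ((∑ i ∈ range n, L i : ℕ) : ℝ) ≤ ℓ / δ * (3 + 2 * (ℓ * Real.log q)) *
      ((En q w L s n + 1 : ℕ) * (κ ^ (En q w L s n + 1) * (D 0 + c0 + Er ε n))) := by
  have hk := h.k1
  have hB := h.pos 0
  have hBn := h.pos n
  obtain ⟨-, h2⟩ := h.main n
  have hEr := h.Er_nonneg n
  have hee : ee q w L s n ≤ 1 := by unfold ee; split_ifs <;> omega
  set A := En q w L s n with hA
  set B := D 0 + c0 + Er ε n with hBd
  have hB0 : 0 ≤ B := by linarith
  have hX0 : 0 ≤ ((A + 1 : ℕ) : ℝ) * (κ ^ (A + 1) * B) :=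
    mul_nonneg (by positivity) (mul_nonneg (pow_nonneg (by linarith) _) hB0)
  have h3 : (As q L s n : ℝ) ≤ 2 * ((A + 1 : ℕ) * (κ ^ (A + 1) * B)) := by
    refine h2.trans ?_
    have h4 : ((A + ee q w L s n : ℕ) : ℝ) ≤ (A + 1 : ℕ) := by exact_mod_cast (by omega)
    have h5 : κ ^ (A + ee q w L s n) ≤ κ ^ (A + 1) := pow_le_pow_right₀ hk (by omega)
    have h6 : κ ^ (A + ee q w L s n) * B ≤ κ ^ (A + 1) * B := mul_le_mul_of_nonneg_right h5 hB0
    have h7 : 0 ≤ κ ^ (A + ee q w L s n) * B := mul_nonneg (pow_nonneg (by linarith) _) hB0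
    calc 2 * ((A + ee q w L s n : ℕ) : ℝ) * (κ ^ (A + ee q w L s n) * B)
        ≤ 2 * ((A + 1 : ℕ) : ℝ) * (κ ^ (A + ee q w L s n) * B) :=
          mul_le_mul_of_nonneg_right (by linarith) h7
      _ ≤ 2 * ((A + 1 : ℕ) : ℝ) * (κ ^ (A + 1) * B) :=
          mul_le_mul_of_nonneg_left h6 (by positivity)
      _ = 2 * ((A + 1 : ℕ) * (κ ^ (A + 1) * B)) := by ring
  -- the telescoping sum
  have h4 : ∀ m : ℕ, D m ≤ D 0 + As q L s m * (ℓ * Real.log q) -
      ((m : ℝ) - As q L s m) * δ + Er ε m := by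
    intro m
    induction m with
    | zero => simp [As, Er]
    | succ m ih =>
      rw [As_succ, Er_succ]
      split_ifs with ha
      · have := h.up m
        push_cast
        nlinarith
      · have := h.down ha
        push_cast
        nlinarith
  have h5 := h4 n
  set a : ℝ := ((As q L s n : ℕ) : ℝ) with ha
  have ha0 : 0 ≤ a := Nat.cast_nonneg _
  have hd0 := h.d0
  have hd1 := h.d1
  have hlq := h.logq
  set X := ((A + 1 : ℕ) : ℝ) * (κ ^ (A + 1) * B) with hX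
  have hBX : B ≤ X := by
    have h7 : (1 : ℝ) ≤ κ ^ (A + 1) := one_le_pow₀ hk
    have h8 : B ≤ κ ^ (A + 1) * B := le_mul_of_one_le_left hB0 h7
    have h9 : (1 : ℝ) ≤ ((A + 1 : ℕ) : ℝ) := by exact_mod_cast (by omega : 1 ≤ A + 1)
    have h10 : κ ^ (A + 1) * B ≤ X := le_mul_of_one_le_left (by linarith) h9
    linarith
  have h6 : (n : ℝ) * δ ≤ a + a * (ℓ * Real.log q) + B := by nlinarith
  have h7 : (n : ℝ) * δ ≤ (3 + 2 * (ℓ * Real.log q)) * X := by
    have h8 : 0 ≤ (ℓ : ℝ) * Real.log q := by positivity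
    have h9 : a * (ℓ * Real.log q) ≤ 2 * X * (ℓ * Real.log q) := mul_le_mul_of_nonneg_right h3 h8
    nlinarith
  have h8 : ((∑ i ∈ range n, L i : ℕ) : ℝ) ≤ ℓ * n := by
    push_cast
    calc ∑ i ∈ range n, (L i : ℝ) ≤ ∑ _i ∈ range n, (ℓ : ℝ) :=
          Finset.sum_le_sum fun i _ => by exact_mod_cast h.Ll i
      _ = ℓ * n := by simp [mul_comm]
  have h9 : (n : ℝ) ≤ (3 + 2 * (ℓ * Real.log q)) * X / δ := by
    rw [le_div_iff₀ hd0]
    exact h7
  calc ((∑ i ∈ range n, L i : ℕ) : ℝ) ≤ ℓ * n := h8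
    _ ≤ ℓ * ((3 + 2 * (ℓ * Real.log q)) * X / δ) := mul_le_mul_of_nonneg_left h9 (by positivity)
    _ = _ := by ring

end Chain

/-- the word of the piece `i` of the cutting `t` of the orbit of `x0` -/
def wd (x0 : ℤ) (t : ℕ → ℕ) (i : ℕ) : List ℤ :=
  (List.range (t (i + 1) - t i)).map fun j => (T 3 1)^[j] ((T 3 1)^[t i] x0) % 2

/-- a cutting of a trajectory -/
structure Tr (x0 : ℤ) (t : ℕ → ℕ) (r ℓ : ℕ) : Prop where
  t0 : t 0 = 0
  lt : ∀ i < r, t i < t (i + 1)
  le : ∀ i < r, t (i + 1) ≤ t i + ℓ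
  ten : ∀ i ≤ t r, 10 ≤ (T 3 1)^[i] x0
  inj : ∀ i j, i ≤ t r → j ≤ t r → (T 3 1)^[i] x0 = (T 3 1)^[j] x0 → i = j

theorem step_log3 {x : ℤ} (hx : 10 ≤ x) :
    |Real.log (T 3 1 x : ℝ) - Real.log (x : ℝ) + Real.log 2 - ((x % 2).toNat : ℝ) * Real.log 3| ≤
      fc 1 x := by
  have hx0 : (0 : ℝ) < x := by exact_mod_cast (by omega : 0 < x)
  rcases par x with h | h
  · have h1 : (2 : ℝ) * (T 3 1 x : ℝ) = x := by exact_mod_cast T_even (q := 3) (d := 1) h
    have h2 : Real.log (x : ℝ) = Real.log 2 + Real.log (T 3 1 x : ℝ) := by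
      rw [← h1, Real.log_mul (by norm_num) (by intro h3; rw [h3] at h1; linarith)]
    rw [h, h2]
    simp [fc, h]
  · have h1 : (2 : ℝ) * (T 3 1 x : ℝ) = 3 * x + 1 := by
      exact_mod_cast T_odd (q := 3) (d := 1) (by norm_num) (by norm_num) h
    have h2 : Real.log 2 + Real.log (T 3 1 x : ℝ) = Real.log (3 * x + 1) := by
      rw [← h1, Real.log_mul (by norm_num) (by intro h3; rw [h3] at h1; linarith)]
    have h3 : Real.log (3 * x + 1) = Real.log 3 + Real.log x + Real.log (1 + 1 / (3 * x)) := by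
      rw [← Real.log_mul (by norm_num) hx0.ne', ← Real.log_mul (by positivity) (by positivity)]
      congr 1
      field_simp
    have h4 : Real.log (1 + 1 / (3 * (x : ℝ))) ≤ 1 / (3 * x) := by
      have := Real.log_le_sub_one_of_pos (show (0 : ℝ) < 1 + 1 / (3 * x) by positivity)
      linarith
    have h5 : 0 ≤ Real.log (1 + 1 / (3 * (x : ℝ))) := Real.log_nonneg (by
      have : (0 : ℝ) < 1 / (3 * x) := by positivity
      linarith)
    have h6 : (1 : ℝ) / (3 * x) ≤ 1 / x := by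
      apply one_div_le_one_div_of_le hx0
      linarith
    have e1 : ((1 : ℤ).toNat : ℝ) = 1 := by norm_num
    have e2 : Real.log (T 3 1 x : ℝ) - Real.log (x : ℝ) + Real.log 2 - ((x % 2).toNat : ℝ) * Real.log 3 =
        Real.log (1 + 1 / (3 * (x : ℝ))) := by
      rw [h, e1]
      linarith
    rw [e2, abs_of_nonneg h5]
    unfold fc
    rw [if_pos h, abs_of_pos hx0]
    simp only [Int.cast_one, abs_one]
    linarith

theorem block_log3 {y : ℤ} (L : ℕ) (h : ∀ j < L, 10 ≤ (T 3 1)^[j] y) :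
    |Real.log (((T 3 1)^[L] y : ℤ) : ℝ) - Real.log (y : ℝ) + L * Real.log 2 -
      (od (fun j => (T 3 1)^[j] y) L : ℝ) * Real.log 3| ≤ FS 1 (fun j => (T 3 1)^[j] y) L := by
  induction L with
  | zero => simp [od, FS]
  | succ L ih =>
    have ih := ih fun j hj => h j (by omega)
    have h1 := step_log3 (h L (by omega))
    have e1 : (od (fun j => (T 3 1)^[j] y) (L + 1) : ℝ) = od (fun j => (T 3 1)^[j] y) L +
        (((T 3 1)^[L] y % 2).toNat : ℝ) := by
      have : od (fun j => (T 3 1)^[j] y) (L + 1) = od (fun j => (T 3 1)^[j] y) L +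
        ((T 3 1)^[L] y % 2).toNat := rfl
      rw [this]; push_cast; ring
    have e2 : FS 1 (fun j => (T 3 1)^[j] y) (L + 1) = FS 1 (fun j => (T 3 1)^[j] y) L +
        fc 1 ((T 3 1)^[L] y) := by
      unfold FS; rw [Finset.sum_range_succ]
    rw [e1, e2, Function.iterate_succ_apply']
    push_cast
    have e3 : Real.log ((T 3 1 ((T 3 1)^[L] y) : ℤ) : ℝ) - Real.log (y : ℝ) + ((L : ℝ) + 1) * Real.log 2 -
        ((od (fun j => (T 3 1)^[j] y) L : ℝ) + (((T 3 1)^[L] y % 2).toNat : ℝ)) * Real.log 3 =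
        (Real.log (((T 3 1)^[L] y : ℤ) : ℝ) - Real.log (y : ℝ) + L * Real.log 2 -
          (od (fun j => (T 3 1)^[j] y) L : ℝ) * Real.log 3) +
        (Real.log ((T 3 1 ((T 3 1)^[L] y) : ℤ) : ℝ) - Real.log (((T 3 1)^[L] y : ℤ) : ℝ) + Real.log 2 -
          (((T 3 1)^[L] y % 2).toNat : ℝ) * Real.log 3) := by ring
    rw [e3]
    exact (abs_add_le _ _).trans (add_le_add ih h1)

theorem T3_le {x : ℤ} (hx : 1 ≤ x) : T 3 1 x ≤ 3 * x := by
  rcases par x with h | h
  · have := T_even (q := 3) (d := 1) h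
    omega
  · have := T_odd (q := 3) (d := 1) (by norm_num) (by norm_num) h
    omega

theorem T3_pow_le {y : ℤ} (L : ℕ) (h : ∀ j < L, 10 ≤ (T 3 1)^[j] y) :
    (T 3 1)^[L] y ≤ 3 ^ L * y := by
  induction L with
  | zero => simp
  | succ L ih =>
    have ih := ih fun j hj => h j (by omega)
    rw [Function.iterate_succ_apply', pow_succ]
    have := T3_le (x := (T 3 1)^[L] y) (by have := h L (by omega); omega)
    linarith

namespace Tr

variable {x0 : ℤ} {t : ℕ → ℕ} {r ℓ : ℕ}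

theorem mono (h : Tr x0 t r ℓ) {i j : ℕ} (hij : i ≤ j) (hj : j ≤ r) : t i ≤ t j := by
  induction j with
  | zero => rw [Nat.le_zero.1 hij]
  | succ j ih =>
    rcases Nat.lt_or_ge i (j + 1) with h1 | h1
    · have := ih (by omega) (by omega)
      have := h.lt j (by omega)
      omega
    · rw [show i = j + 1 by omega]

theorem wd_length (x0 : ℤ) (t : ℕ → ℕ) (i : ℕ) : (wd x0 t i).length = t (i + 1) - t i := by
  simp [wd]

theorem wd_eq {i j : ℕ} (h : wd x0 t i = wd x0 t j) :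
    t (i + 1) - t i = t (j + 1) - t j ∧ ∀ k < t (i + 1) - t i,
      (T 3 1)^[k] ((T 3 1)^[t i] x0) % 2 = (T 3 1)^[k] ((T 3 1)^[t j] x0) % 2 := by
  have h1 : t (i + 1) - t i = t (j + 1) - t j := by rw [← wd_length x0, ← wd_length x0, h]
  refine ⟨h1, fun k hk => ?_⟩
  unfold wd at h
  rw [← h1] at h
  exact (List.map_inj_left.1 h) k (List.mem_range.2 hk)

theorem next (h : Tr x0 t r ℓ) {i : ℕ} (hi : i < r) :
    (T 3 1)^[t (i + 1) - t i] ((T 3 1)^[t i] x0) = (T 3 1)^[t (i + 1)] x0 := by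
  have := h.lt i hi
  rw [← Function.iterate_add_apply, show t (i + 1) - t i + t i = t (i + 1) by omega]

/-- the equation of a run -/
theorem run_eq3 (h : Tr x0 t r ℓ) (i m : ℕ) (him : i + m < r)
    (hw : ∀ k ≤ m, wd x0 t (i + k) = wd x0 t i) :
    (2 ^ (t (i + 1) - t i)) ^ m * ((T 3 1)^[t (i + m)] x0 - (T 3 1)^[t (i + m + 1)] x0) =
    ((3 : ℤ) ^ (wd x0 t i).count 1) ^ m * ((T 3 1)^[t i] x0 - (T 3 1)^[t (i + 1)] x0) := by
  induction m with
  | zero => simp
  | succ m ih =>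
    have ih := ih (by omega) fun k hk => hw k (by omega)
    have h1 := hw m (by omega)
    have h2 := hw (m + 1) le_rfl
    obtain ⟨g1, -⟩ := wd_eq h1
    obtain ⟨g2, -⟩ := wd_eq h2
    obtain ⟨-, g3⟩ := wd_eq (h1.trans h2.symm)
    have h3 := same_word (q := 3) (d := 1) (by norm_num) (by norm_num) _ _ _ g3
    rw [← word_count] at h3
    have e1 : ((List.range (t (i + m + 1) - t (i + m))).map
        fun j => (T 3 1)^[j] ((T 3 1)^[t (i + m)] x0) % 2) = wd x0 t (i + m) := rfl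
    rw [e1, h1, h.next (by omega), g1] at h3
    have e3 : (T 3 1)^[t (i + 1) - t i] ((T 3 1)^[t (i + (m + 1))] x0) =
        (T 3 1)^[t (i + (m + 1) + 1)] x0 := by
      rw [← g2, h.next (by omega)]
    rw [e3] at h3
    have e4 : i + (m + 1) = i + m + 1 := by ring
    rw [e4] at h3 ⊢
    rw [pow_succ, pow_succ]
    linear_combination
      (2 ^ (t (i + 1) - t i)) ^ m * h3 +
      (3 : ℤ) ^ (wd x0 t i).count 1 * ih

theorem len_le (h : Tr x0 t r ℓ) {i : ℕ} (hi : i < r) : t (i + 1) - t i ≤ ℓ := by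
  have := h.le i hi
  omega

theorem len_pos (h : Tr x0 t r ℓ) {i : ℕ} (hi : i < r) : 1 ≤ t (i + 1) - t i := by
  have := h.lt i hi
  omega

/-- all elements of a piece are large -/
theorem ten' (h : Tr x0 t r ℓ) {i : ℕ} (hi : i < r) {j : ℕ} (hj : j < t (i + 1) - t i) :
    10 ≤ (T 3 1)^[j] ((T 3 1)^[t i] x0) := by
  rw [← Function.iterate_add_apply]
  apply h.ten
  have := h.mono (i := i + 1) (j := r) (by omega) le_rfl
  omega

end Tr

/-- the letters -/
noncomputable def tw (x0 : ℤ) (t : ℕ → ℕ) (r i : ℕ) : List ℤ ⊕ ℕ :=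
  if i < r then Sum.inl (wd x0 t i) else Sum.inr i

noncomputable def tL (t : ℕ → ℕ) (r i : ℕ) : ℕ := if i < r then t (i + 1) - t i else 1

noncomputable def ts (x0 : ℤ) (t : ℕ → ℕ) (r i : ℕ) : ℕ := if i < r then (wd x0 t i).count 1 else 1

noncomputable def tD (x0 : ℤ) (t : ℕ → ℕ) (r i : ℕ) : ℝ :=
  if i ≤ r then Real.log (((T 3 1)^[t i] x0 : ℤ) : ℝ)
  else Real.log (((T 3 1)^[t r] x0 : ℤ) : ℝ) + ((i : ℝ) - r) * (Real.log 3 - Real.log 2)

noncomputable def te (x0 : ℤ) (t : ℕ → ℕ) (r i : ℕ) : ℝ :=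
  if i < r then FS 1 (fun j => (T 3 1)^[j] ((T 3 1)^[t i] x0)) (t (i + 1) - t i) else 0

theorem log32 : Real.log 2 < Real.log 3 := Real.log_lt_log (by norm_num) (by norm_num)

/-- **The chain of a cutting of a trajectory.** -/
theorem Tr.chain {x0 : ℤ} {t : ℕ → ℕ} {r ℓ : ℕ} (h : Tr x0 t r ℓ) (hr : 1 ≤ r) :
    Chain (3 : ℝ) (cc 3 ℓ) (nu3 ℓ / 2) (Real.log 3 / Real.log 2) ℓ (tw x0 t r) (tL t r)
      (ts x0 t r) (tD x0 t r) (te x0 t r) := by
  have hl2 := log2_ge
  have hl3 := log3_ge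
  have h32 := log32
  have hℓ : 1 ≤ ℓ := (h.len_pos (i := 0) (by omega)).trans (h.len_le (by omega))
  have hℓR : (1 : ℝ) ≤ ℓ := by exact_mod_cast hℓ
  have hν : Nu ((3 : ℕ) : ℝ) nu3 := by exact_mod_cast nu3_Nu
  have hν0 := nu3_Nu.pos ℓ hℓR
  have hν1 := nu3_Nu.le_one ℓ hℓR
  have hlogx : ∀ i ≤ r, 0 ≤ Real.log (((T 3 1)^[t i] x0 : ℤ) : ℝ) := fun i hi => by
    apply Real.log_nonneg
    have := h.ten (t i) (h.mono hi le_rfl)
    exact_mod_cast (by omega : (1 : ℤ) ≤ (T 3 1)^[t i] x0)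
  have hcc : 2 * Real.log 2 ≤ cc 3 ℓ := by
    unfold cc
    have : 0 ≤ (ℓ : ℝ) * Real.log ((3 : ℕ) : ℝ) := by push_cast; positivity
    nlinarith
  refine ⟨le_rfl, fun i => ?_, fun i => ?_, fun i => ?_, fun i j hij => ?_, fun i => ?_, fun i => ?_,
    fun i m hm => ?_, fun i hi => ?_, by linarith, by linarith, le_rfl⟩
  · unfold tL
    split_ifs with h1
    · exact h.len_pos h1
    · exact le_rfl
  · unfold tL
    split_ifs with h1
    · exact h.len_le h1
    · exact hℓ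
  · unfold ts tL
    split_ifs with h1
    · rw [← Tr.wd_length x0]
      exact List.count_le_length
    · exact le_rfl
  · unfold tw at hij
    unfold tL ts
    split_ifs at hij with h1 h2 h2
    · rw [if_pos h1, if_pos h2, if_pos h1, if_pos h2]
      have h3 := Sum.inl.inj hij
      exact ⟨(Tr.wd_eq h3).1, by rw [h3]⟩
    · rw [if_neg h1, if_neg h2, if_neg h1, if_neg h2]
      exact ⟨rfl, rfl⟩
  · unfold te
    split_ifs with h1
    · exact Finset.sum_nonneg fun j _ => fc_nonneg _ _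
    · exact le_rfl
  · unfold tD tL ts te
    rcases Nat.lt_or_ge i r with h1 | h1
    · rw [if_pos (by omega : i + 1 ≤ r), if_pos h1.le, if_pos h1, if_pos h1, if_pos h1]
      have h2 := block_log3 (y := (T 3 1)^[t i] x0) (t (i + 1) - t i) fun j hj => h.ten' h1 hj
      rw [h.next h1, ← word_count] at h2
      exact h2
    · rw [if_neg (by omega : ¬ i + 1 ≤ r), if_neg (by omega : ¬ i < r), if_neg (by omega : ¬ i < r),
        if_neg (by omega : ¬ i < r)]
      rcases eq_or_lt_of_le h1 with h2 | h2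
      · rw [if_pos h2.ge, ← h2]
        push_cast
        apply le_of_eq
        rw [abs_eq_zero]
        ring
      · rw [if_neg (by omega : ¬ i ≤ r)]
        push_cast
        apply le_of_eq
        rw [abs_eq_zero]
        ring
  · -- the length of a run
    have hD : 0 ≤ tD x0 t r i := by
      unfold tD
      split_ifs with h1
      · exact hlogx i h1
      · have h2 := hlogx r le_rfl
        have h3 : (r : ℝ) ≤ i := by exact_mod_cast (by omega : r ≤ i)
        have h4 : 0 ≤ ((i : ℝ) - r) * (Real.log 3 - Real.log 2) :=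
          mul_nonneg (by linarith) (by linarith)
        linarith
    rcases m with _ | m
    · simp only [Nat.cast_zero, zero_mul]
      linarith
    rcases Nat.lt_or_ge i r with h1 | h1
    · have hlast : i + m < r := by
        have h2 := hm m (by omega)
        unfold tw at h2
        rw [if_pos h1] at h2
        by_contra hcon
        rw [if_neg hcon] at h2
        exact absurd h2 (by simp)
      have hw : ∀ k ≤ m, wd x0 t (i + k) = wd x0 t i := by
        intro k hk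
        have h2 := hm k (by omega)
        unfold tw at h2
        rw [if_pos h1, if_pos (by omega : i + k < r)] at h2
        exact Sum.inl.inj h2
      have h2 := h.run_eq3 i m hlast hw
      have hL1 := h.len_pos h1
      have hLl := h.len_le h1
      have hnext := h.next h1
      have hti : t i ≤ t r := h.mono h1.le le_rfl
      have hti1 : t (i + 1) ≤ t r := h.mono (i := i + 1) (by omega) le_rfl
      set Lc := t (i + 1) - t i with hLd
      set X := (T 3 1)^[t i] x0 with hX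
      set Y := (T 3 1)^[t (i + 1)] x0 with hY
      have hX10 : 10 ≤ X := h.ten _ hti
      have hY10 : 10 ≤ Y := h.ten _ hti1
      have hne : X - Y ≠ 0 := by
        intro h3
        have h4 := h.inj _ _ hti hti1 (sub_eq_zero.1 h3)
        omega
      have hdvd : ((2 : ℤ) ^ Lc) ^ m ∣ X - Y := by
        have h3 : ((2 : ℤ) ^ Lc) ^ m ∣ ((3 : ℤ) ^ (wd x0 t i).count 1) ^ m * (X - Y) := by
          rw [← h2]; exact dvd_mul_right _ _
        refine IsCoprime.dvd_of_dvd_mul_left ?_ h3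
        refine IsCoprime.pow (IsCoprime.pow ?_)
        rw [Int.isCoprime_iff_gcd_eq_one]
        norm_num
      have habs : ((2 : ℤ) ^ Lc) ^ m ≤ |X - Y| := Int.le_of_dvd (abs_pos.2 hne) ((dvd_abs _ _).2 hdvd)
      have hYle : Y ≤ 3 ^ Lc * X := by
        have h3 := T3_pow_le (y := X) Lc fun j hj => h.ten' h1 hj
        rwa [hnext] at h3
      have h3e : (3 : ℤ) ^ Lc ≤ 3 ^ ℓ := pow_le_pow_right₀ (by norm_num) hLl
      have hYle2 : Y ≤ 3 ^ ℓ * X := hYle.trans (mul_le_mul_of_nonneg_right h3e (by omega))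
      have hXle : X ≤ 3 ^ ℓ * X := le_mul_of_one_le_left (by omega) (one_le_pow₀ (by norm_num))
      have hdiff : |X - Y| ≤ 3 ^ ℓ * X := by
        rw [abs_le]
        constructor <;> linarith
      have hfin : ((2 : ℝ) ^ Lc) ^ m ≤ 3 ^ ℓ * (X : ℝ) := by exact_mod_cast habs.trans hdiff
      have hXR : (0 : ℝ) < X := by exact_mod_cast (by omega : 0 < X)
      have hlog := Real.log_le_log (by positivity) hfin
      rw [Real.log_pow, Real.log_pow, Real.log_mul (by positivity) hXR.ne', Real.log_pow] at hlog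
      have hL2 : (Lc : ℝ) * Real.log 2 ≤ ℓ * Real.log 2 :=
        mul_le_mul_of_nonneg_right (by exact_mod_cast hLl) (by linarith)
      unfold tL tD
      rw [if_pos h1, if_pos h1.le, ← hLd, ← hX]
      unfold cc
      push_cast
      nlinarith
    · have hm0 : m = 0 := by
        by_contra hcon
        have h2 := hm 1 (by omega)
        unfold tw at h2
        rw [if_neg (by omega : ¬ i + 1 < r), if_neg (by omega : ¬ i < r)] at h2
        have := Sum.inr.inj h2
        omega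
      subst hm0
      unfold tL
      rw [if_neg (by omega : ¬ i < r)]
      push_cast
      linarith
  · unfold ts tL at hi ⊢
    split_ifs at hi ⊢ with h1
    · have h3 : (wd x0 t i).count 1 ≤ t (i + 1) - t i := by
        rw [← Tr.wd_length x0]; exact List.count_le_length
      have h2 := desc_word (q := 3) hν (h.len_pos h1) (h.len_le h1) h3 (by exact_mod_cast hi)
      exact_mod_cast h2
    · push_cast at hi
      exact absurd (by linarith) hi

open Classical in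
/-- the ends of the runs of equal ascending words -/
noncomputable def trn (x0 : ℤ) (t : ℕ → ℕ) (r : ℕ) : Finset ℕ :=
  (range (r - 1)).filter fun i => Ascending 3 (wd x0 t i) ∧ wd x0 t (i + 1) ≠ wd x0 t i

theorem Tr.En_le {x0 : ℤ} {t : ℕ → ℕ} {r ℓ : ℕ} (_h : Tr x0 t r ℓ) :
    En (3 : ℝ) (tw x0 t r) (tL t r) (ts x0 t r) r ≤ (trn x0 t r).card + 1 := by
  classical
  unfold En
  have hsub : ((range r).filter fun j => Asc (3 : ℝ) (tL t r) (ts x0 t r) j ∧
      tw x0 t r (j + 1) ≠ tw x0 t r j) ⊆ insert (r - 1) (trn x0 t r) := by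
    intro j hj
    rw [mem_filter, mem_range] at hj
    obtain ⟨h1, h2, h3⟩ := hj
    rw [mem_insert]
    by_cases h4 : j = r - 1
    · exact Or.inl h4
    · right
      unfold trn
      rw [mem_filter, mem_range]
      refine ⟨by omega, ?_, ?_⟩
      · unfold Ascending
        rw [Tr.wd_length]
        unfold Asc tL ts at h2
        rw [if_pos h1, if_pos h1, ← Real.log_pow, ← Real.log_pow,
          Real.log_lt_log_iff (by positivity) (by positivity)] at h2
        exact_mod_cast h2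
      · unfold tw at h3
        rw [if_pos h1, if_pos (by omega : j + 1 < r)] at h3
        exact fun h5 => h3 (by rw [h5])
  calc _ ≤ (insert (r - 1) (trn x0 t r)).card := by
        convert Finset.card_le_card hsub
    _ ≤ _ := Finset.card_insert_le _ _

theorem Tr.Er_eq {x0 : ℤ} {t : ℕ → ℕ} {r ℓ : ℕ} (h : Tr x0 t r ℓ) {n : ℕ} (hn : n ≤ r) :
    Er (te x0 t r) n = FS 1 (fun i => (T 3 1)^[i] x0) (t n) := by
  induction n with
  | zero => simp [Er, FS, h.t0]
  | succ n ih =>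
    have h1 := h.lt n (by omega)
    have h2 : t (n + 1) = t n + (t (n + 1) - t n) := by omega
    rw [Er_succ, ih (by omega)]
    unfold te
    rw [if_pos (by omega : n < r)]
    unfold FS
    conv_rhs => rw [h2]
    rw [Finset.sum_range_add]
    congr 1
    refine Finset.sum_congr rfl fun j _ => ?_
    have e : (T 3 1)^[t n + j] x0 = (T 3 1)^[j] ((T 3 1)^[t n] x0) := by
      rw [add_comm (t n) j, Function.iterate_add_apply]
    change fc 1 ((T 3 1)^[j] ((T 3 1)^[t n] x0)) = fc 1 ((T 3 1)^[t n + j] x0)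
    rw [e]

theorem Tr.sum_tL {x0 : ℤ} {t : ℕ → ℕ} {r ℓ : ℕ} (h : Tr x0 t r ℓ) {n : ℕ} (hn : n ≤ r) :
    ∑ i ∈ range n, tL t r i = t n := by
  induction n with
  | zero => simp [h.t0]
  | succ n ih =>
    have h1 := h.lt n (by omega)
    rw [Finset.sum_range_succ, ih (by omega)]
    unfold tL
    rw [if_pos (by omega : n < r)]
    omega

theorem Tr.Er_le {x0 : ℤ} {t : ℕ → ℕ} {r ℓ : ℕ} (h : Tr x0 t r ℓ) (hr : 1 ≤ r) :
    Er (te x0 t r) r ≤ 2 * (1 + Real.log (t r)) := by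
  classical
  rw [h.Er_eq le_rfl]
  have hpos : 1 ≤ t r := by
    have h1 := h.lt 0 (by omega)
    have h2 := h.mono (i := 1) (j := r) (by omega) le_rfl
    rw [zero_add] at h1
    omega
  set Z := (range (t r)).image (fun i => (T 3 1)^[i] x0) with hZ
  have hinj : Set.InjOn (fun i => (T 3 1)^[i] x0) ((range (t r) : Finset ℕ) : Set ℕ) := by
    intro i hi j hj hij
    rw [mem_coe, mem_range] at hi hj
    exact h.inj i j hi.le hj.le hij
  have hcard : Z.card = t r := by rw [hZ, Finset.card_image_of_injOn hinj, card_range]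
  have h0 : (0 : ℤ) ∉ Z := by
    rw [hZ, mem_image]
    rintro ⟨i, hi, h1⟩
    rw [mem_range] at hi
    have := h.ten i hi.le
    omega
  unfold FS
  calc ∑ i ∈ range (t r), fc 1 ((T 3 1)^[i] x0) = ∑ x ∈ Z, fc 1 x := by
        rw [hZ, Finset.sum_image hinj]
    _ ≤ ∑ x ∈ Z, (1 / |(x : ℝ)|) := by
        refine Finset.sum_le_sum fun x _ => ?_
        unfold fc
        split_ifs
        · simp
        · positivity
    _ ≤ 2 * (1 + Real.log Z.card) := sum_inv_int Z h0 (by omega)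
    _ = _ := by rw [hcard]

/-- **The inequality for trajectories.** -/
theorem Tr.ineq {x0 : ℤ} {t : ℕ → ℕ} {r ℓ : ℕ} (h : Tr x0 t r ℓ) (hr : 1 ≤ r) :
    (t r : ℝ) ≤ (200 * ((ℓ : ℝ) ^ 3 / nu3 ℓ) * (1 + Real.log (x0 : ℝ))) *
      (((trn x0 t r).card + 1 + 1 : ℕ) * ((Real.log 3 / Real.log 2) ^ ((trn x0 t r).card + 1 + 1) *
        (1 + Real.log (t r)) ^ 2)) := by
  have htot := (h.chain hr).total' r
  have hE := h.En_le
  have hErr := h.Er_le hr
  have hEr0 := (h.chain hr).Er_nonneg r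
  have hl2 := log2_ge
  have hl3 := log3_ge
  have hl2' : Real.log 2 ≤ 1 := by have := Real.log_two_lt_d9; linarith
  have hl3' : Real.log 3 ≤ 2 := by
    have := Real.log_le_sub_one_of_pos (show (0 : ℝ) < 3 by norm_num)
    linarith
  have hℓ : 1 ≤ ℓ := (h.len_pos (i := 0) (by omega)).trans (h.len_le (by omega))
  have hℓR : (1 : ℝ) ≤ ℓ := by exact_mod_cast hℓ
  have hν0 := nu3_Nu.pos ℓ hℓR
  have hκ1 : 1 ≤ Real.log 3 / Real.log 2 := (logb_gt (q := 3) le_rfl).le.trans (by push_cast; exact le_rfl)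
  rw [h.sum_tL le_rfl] at htot
  have htr : 1 ≤ t r := by
    have h1 := h.lt 0 (by omega)
    have h2 := h.mono (i := 1) (j := r) (by omega) le_rfl
    rw [zero_add] at h1
    omega
  have htrR : (1 : ℝ) ≤ t r := by exact_mod_cast htr
  have hy := Real.log_nonneg htrR
  have hx10 : (10 : ℝ) ≤ x0 := by exact_mod_cast h.ten 0 (Nat.zero_le _)
  have hu : 0 ≤ Real.log (x0 : ℝ) := Real.log_nonneg (by linarith)
  have hD0 : tD x0 t r 0 = Real.log (x0 : ℝ) := by
    unfold tD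
    rw [if_pos (Nat.zero_le _), h.t0]
    rfl
  rw [hD0] at htot
  set A := (trn x0 t r).card + 1 with hA
  set E := En (3 : ℝ) (tw x0 t r) (tL t r) (ts x0 t r) r with hEd
  set κ := Real.log 3 / Real.log 2 with hκ
  set y := Real.log (t r : ℝ) with hyd
  set u := Real.log (x0 : ℝ) with hud
  have hcc : cc 3 ℓ ≤ 4 * ℓ := by
    unfold cc
    push_cast
    have h1 : ((ℓ : ℝ) + 1) * Real.log 2 ≤ (ℓ + 1) * 1 := mul_le_mul_of_nonneg_left hl2' (by linarith)
    have h2 : (ℓ : ℝ) * Real.log 3 ≤ ℓ * 2 := mul_le_mul_of_nonneg_left hl3' (by linarith)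
    linarith
  have hcc0 : 0 ≤ cc 3 ℓ := by unfold cc; positivity
  have hB : u + cc 3 ℓ + Er (te x0 t r) r ≤ 7 * (ℓ * (1 + u)) * (1 + y) ^ 2 := by
    have e1 : (1 : ℝ) ≤ (1 + y) ^ 2 := by nlinarith
    have e2 : 1 + y ≤ (1 + y) ^ 2 := by nlinarith
    have e3 : 1 ≤ (ℓ : ℝ) * (1 + u) := by nlinarith
    have f1 : u + cc 3 ℓ ≤ 5 * (ℓ * (1 + u)) := by nlinarith
    have f2 : u + cc 3 ℓ ≤ 5 * (ℓ * (1 + u)) * (1 + y) ^ 2 :=
      f1.trans (le_mul_of_one_le_right (by positivity) e1)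
    have f3 : 2 * (1 + y) ≤ 2 * (ℓ * (1 + u)) * (1 + y) ^ 2 := by
      have := le_mul_of_one_le_left (show 0 ≤ (1 + y) ^ 2 by positivity) e3
      linarith
    linarith
  have hB0 : 0 ≤ u + cc 3 ℓ + Er (te x0 t r) r := by linarith
  have h5 : κ ^ (E + 1) ≤ κ ^ (A + 1) := pow_le_pow_right₀ hκ1 (by omega)
  have h6 : ((E + 1 : ℕ) : ℝ) ≤ (A + 1 : ℕ) := by exact_mod_cast (by omega)
  have h7 : κ ^ (E + 1) * (u + cc 3 ℓ + Er (te x0 t r) r) ≤
      κ ^ (A + 1) * (7 * (ℓ * (1 + u)) * (1 + y) ^ 2) :=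
    mul_le_mul h5 hB hB0 (by positivity)
  have h8 : ((E + 1 : ℕ) : ℝ) * (κ ^ (E + 1) * (u + cc 3 ℓ + Er (te x0 t r) r)) ≤
      ((A + 1 : ℕ) : ℝ) * (κ ^ (A + 1) * (7 * (ℓ * (1 + u)) * (1 + y) ^ 2)) :=
    mul_le_mul h6 h7 (mul_nonneg (by positivity) hB0) (by positivity)
  have h9 : (0 : ℝ) ≤ ((A + 1 : ℕ) : ℝ) * (κ ^ (A + 1) * (7 * (ℓ * (1 + u)) * (1 + y) ^ 2)) := by
    positivity
  have h10 : (ℓ : ℝ) / (nu3 ℓ / 2) * (3 + 2 * (ℓ * Real.log 3)) ≤ 14 * (ℓ : ℝ) ^ 2 / nu3 ℓ := by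
    have e2 : 3 + 2 * ((ℓ : ℝ) * Real.log 3) ≤ 7 * ℓ := by
      have h2 : (ℓ : ℝ) * Real.log 3 ≤ ℓ * 2 := mul_le_mul_of_nonneg_left hl3' (by linarith)
      nlinarith
    have e3 : (ℓ : ℝ) / (nu3 ℓ / 2) = 2 * ℓ / nu3 ℓ := by field_simp
    rw [e3]
    calc 2 * (ℓ : ℝ) / nu3 ℓ * (3 + 2 * (ℓ * Real.log 3)) ≤ 2 * ℓ / nu3 ℓ * (7 * ℓ) :=
          mul_le_mul_of_nonneg_left e2 (by positivity)
      _ = _ := by ring
  calc (t r : ℝ) ≤ (ℓ : ℝ) / (nu3 ℓ / 2) * (3 + 2 * (ℓ * Real.log 3)) *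
        (((E + 1 : ℕ) : ℝ) * (κ ^ (E + 1) * (u + cc 3 ℓ + Er (te x0 t r) r))) := htot
    _ ≤ (ℓ : ℝ) / (nu3 ℓ / 2) * (3 + 2 * (ℓ * Real.log 3)) *
        (((A + 1 : ℕ) : ℝ) * (κ ^ (A + 1) * (7 * (ℓ * (1 + u)) * (1 + y) ^ 2))) :=
      mul_le_mul_of_nonneg_left h8 (by positivity)
    _ ≤ 14 * (ℓ : ℝ) ^ 2 / nu3 ℓ *
        (((A + 1 : ℕ) : ℝ) * (κ ^ (A + 1) * (7 * (ℓ * (1 + u)) * (1 + y) ^ 2))) :=
      mul_le_mul_of_nonneg_right h10 h9
    _ = (98 * ((ℓ : ℝ) ^ 3 / nu3 ℓ) * (1 + u)) * (((A + 1 : ℕ) : ℝ) * (κ ^ (A + 1) * (1 + y) ^ 2)) := by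
      ring
    _ ≤ (200 * ((ℓ : ℝ) ^ 3 / nu3 ℓ) * (1 + u)) *
        (((A + 1 : ℕ) : ℝ) * (κ ^ (A + 1) * (1 + y) ^ 2)) := by
      apply mul_le_mul_of_nonneg_right _ (by positivity)
      apply mul_le_mul_of_nonneg_right _ (by positivity)
      apply mul_le_mul_of_nonneg_right _ (by positivity)
      norm_num

end Pool.Agent.H26.CU
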