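import Mathlib
import Pool.Agent.H26.CU.Traj

set_option autoImplicit false

/-!
Cuttings of the trajectories of positive integers and the exceptions to `l(n) ≤ n`.
-/

namespace Pool.Agent.H26.CU

open Finset Filter
open Pool.Agent.H15.Asc (T nu3 nu3_Nu)

/-- The Collatz function. -/
def Col (n : ℕ) : ℕ := if n % 2 = 0 then n / 2 else 3 * n + 1

/-- The accelerated Collatz function. -/
def TN (n : ℕ) : ℕ := if n % 2 = 0 then n / 2 else (3 * n + 1) / 2

theorem TN_cast (n : ℕ) : ((TN n : ℕ) : ℤ) = T 3 1 (n : ℤ) := by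
  unfold TN T
  split_ifs with h1 h2 h2
  · push_cast; rfl
  · omega
  · omega
  · push_cast; rfl

theorem TN_iter_cast (n i : ℕ) : ((TN^[i] n : ℕ) : ℤ) = (T 3 1)^[i] (n : ℤ) := by
  induction i with
  | zero => rfl
  | succ i ih => rw [Function.iterate_succ_apply', Function.iterate_succ_apply', TN_cast, ih]

theorem TN_pos {n : ℕ} (h : 0 < n) (i : ℕ) : 0 < TN^[i] n := by
  induction i with
  | zero => exact h
  | succ i ih =>
    rw [Function.iterate_succ_apply']
    generalize TN^[i] n = y at ih ⊢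
    unfold TN
    split_ifs <;> omega

/-- every value of the accelerated trajectory at time `i` is reached by the Collatz function at a
time at most `2 i` -/
theorem unaccel (n i : ℕ) : ∃ k ≤ 2 * i, Col^[k] n = TN^[i] n := by
  induction i with
  | zero => exact ⟨0, le_rfl, rfl⟩
  | succ i ih =>
    obtain ⟨k, hk, h⟩ := ih
    rw [Function.iterate_succ_apply']
    set y := TN^[i] n with hy
    rcases Nat.mod_two_eq_zero_or_one y with h0 | h0
    · refine ⟨k + 1, by omega, ?_⟩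
      rw [Function.iterate_succ_apply', h]
      simp [Col, TN, h0]
    · refine ⟨k + 2, by omega, ?_⟩
      rw [Function.iterate_succ_apply', Function.iterate_succ_apply', h]
      have h1 : Col y = 3 * y + 1 := by simp [Col, h0]
      have h2 : (3 * y + 1) % 2 = 0 := by omega
      rw [h1]
      simp [Col, TN, h0, h2]

theorem small_per : ∀ y : ℕ, 0 < y → y < 10 → TN^[15] y = TN^[13] y := by
  intro y h1 h2
  interval_cases y <;> decide

/-- the word of a piece -/
def wordN (n : ℕ) (t : ℕ → ℕ) (i : ℕ) : List ℕ :=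
  (List.range (t (i + 1) - t i)).map fun j => TN^[t i + j] n % 2

/-- a cutting of the first `m` steps into `r` pieces of length at most `ℓ` -/
def IsCutting (t : ℕ → ℕ) (r m ℓ : ℕ) : Prop :=
  t 0 = 0 ∧ t r = m ∧ ∀ i < r, t i < t (i + 1) ∧ t (i + 1) ≤ t i + ℓ

def AscendingN (u : List ℕ) : Prop := 2 ^ u.length < 3 ^ u.count 1

open Classical in
noncomputable def turnsN (n : ℕ) (t : ℕ → ℕ) (r : ℕ) : Finset ℕ :=
  (range (r - 1)).filter fun i => AscendingN (wordN n t i) ∧ wordN n t (i + 1) ≠ wordN n t i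

theorem wd_cast (n : ℕ) (t : ℕ → ℕ) (i : ℕ) : wd (n : ℤ) t i = (wordN n t i).map (Nat.cast : ℕ → ℤ) := by
  unfold wd wordN
  rw [List.map_map]
  refine List.map_congr_left fun j _ => ?_
  change (T 3 1)^[j] ((T 3 1)^[t i] (n : ℤ)) % 2 = ((TN^[t i + j] n % 2 : ℕ) : ℤ)
  push_cast
  rw [TN_iter_cast, add_comm (t i) j, Function.iterate_add_apply]

theorem asc_cast (n : ℕ) (t : ℕ → ℕ) (i : ℕ) :
    Ascending 3 (wd (n : ℤ) t i) ↔ AscendingN (wordN n t i) := by
  unfold Ascending AscendingN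
  rw [wd_cast, List.length_map]
  have h : (List.map (Nat.cast : ℕ → ℤ) (wordN n t i)).count 1 = (wordN n t i).count 1 := by
    have h1 := List.count_map_of_injective (wordN n t i) (Nat.cast : ℕ → ℤ) Nat.cast_injective 1
    exact_mod_cast h1
  rw [h]

theorem ne_cast (n : ℕ) (t : ℕ → ℕ) (i j : ℕ) :
    wd (n : ℤ) t i ≠ wd (n : ℤ) t j ↔ wordN n t i ≠ wordN n t j := by
  rw [wd_cast, wd_cast]
  exact (List.map_injective_iff.2 Nat.cast_injective).ne_iff

theorem trn_le (n : ℕ) (t : ℕ → ℕ) {r r' : ℕ} (h : r' ≤ r) :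
    (trn (n : ℤ) t r').card ≤ (turnsN n t r).card := by
  classical
  refine Finset.card_le_card fun i hi => ?_
  unfold trn at hi
  unfold turnsN
  rw [mem_filter, mem_range] at hi ⊢
  exact ⟨by omega, (asc_cast n t i).1 hi.2.1, (ne_cast n t _ _).1 hi.2.2⟩

theorem turnsN_mono (n : ℕ) (t : ℕ → ℕ) {r r' : ℕ} (h : r' ≤ r) :
    (turnsN n t r').card ≤ (turnsN n t r).card := by
  classical
  refine Finset.card_le_card fun i hi => ?_
  unfold turnsN at hi ⊢
  rw [mem_filter, mem_range] at hi ⊢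
  exact ⟨by omega, hi.2⟩

/-- the last cut point before `M` -/
theorem exists_cut {t : ℕ → ℕ} {r m ℓ : ℕ} (h : IsCutting t r m ℓ) {M : ℕ} (hM : M < m) :
    ∃ r' < r, t r' ≤ M ∧ M < t r' + ℓ := by
  classical
  obtain ⟨h0, hr, h1⟩ := h
  have hex : ∃ k, M < t k := ⟨r, by omega⟩
  have hk := Nat.find_spec hex
  rcases hfm : Nat.find hex with _ | k
  · rw [hfm, h0] at hk
    omega
  · rw [hfm] at hk
    have hkr : k + 1 ≤ r := by
      rw [← hfm]
      exact Nat.find_min' hex (by omega)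
    have h2 : t k ≤ M := by
      by_contra hcon
      have := Nat.find_min' hex (not_le.1 hcon)
      omega
    refine ⟨k, by omega, h2, ?_⟩
    have := (h1 k (by omega)).2
    omega

/-- **The trajectories with large elements.** -/
theorem traj_big (c : ℝ) (hc : c < 1 / Real.log (Real.log 3 / Real.log 2)) (hc0 : 0 < c) :
    ∃ C : ℝ, 0 ≤ C ∧ ∀ (x0 : ℤ) (t : ℕ → ℕ) (r ℓ : ℕ), Tr x0 t r ℓ → 1 ≤ r →
      c * Real.log (t r) ≤ (trn x0 t r).card +
        C * (1 + Real.log ℓ + Real.log (1 + Real.log (x0 : ℝ))) := by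
  have hκ : 1 < Real.log 3 / Real.log 2 := by
    have := logb_gt (q := 3) le_rfl
    exact_mod_cast this
  have hlκ := Real.log_pos hκ
  have hcκ : c * Real.log (Real.log 3 / Real.log 2) < 1 := by rwa [lt_div_iff₀ hlκ] at hc
  obtain ⟨C, hC⟩ := final_real hc0 hκ hcκ
  have hl2 : 0 ≤ Real.log 2 := by linarith [log2_ge]
  have hl86 : 0 ≤ Real.log 86 := Real.log_nonneg (by norm_num)
  have hl200 : 0 ≤ Real.log 200 := Real.log_nonneg (by norm_num)
  set A0 : ℝ := 13 * Real.log 2 + 49 * Real.log 86 with hA0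
  have hA00 : 0 ≤ A0 := by positivity
  refine ⟨1 + |C| + 2 * c * (Real.log 200 + A0 + 52), by positivity, fun x0 t r ℓ h hr => ?_⟩
  have hℓ : 1 ≤ ℓ := (h.len_pos (i := 0) (by omega)).trans (h.len_le (by omega))
  have hℓR : (1 : ℝ) ≤ ℓ := by exact_mod_cast hℓ
  have hlℓ := Real.log_nonneg hℓR
  have hν0 := nu3_Nu.pos ℓ hℓR
  have hν1 := nu3_Nu.le_one ℓ hℓR
  have hx10 : (10 : ℝ) ≤ x0 := by exact_mod_cast h.ten 0 (Nat.zero_le _)
  have hu : 0 ≤ Real.log (x0 : ℝ) := Real.log_nonneg (by linarith)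
  have hlu : 0 ≤ Real.log (1 + Real.log (x0 : ℝ)) := Real.log_nonneg (by linarith)
  have htr : 1 ≤ t r := by
    have h1 := h.lt 0 (by omega)
    have h2 := h.mono (i := 1) (j := r) (by omega) le_rfl
    rw [zero_add] at h1
    omega
  have hq : 1 ≤ (ℓ : ℝ) ^ 3 / nu3 ℓ := by
    rw [le_div_iff₀ hν0, one_mul]
    exact hν1.trans (one_le_pow₀ hℓR)
  have hK : 1 ≤ 200 * ((ℓ : ℝ) ^ 3 / nu3 ℓ) * (1 + Real.log (x0 : ℝ)) := by nlinarith
  have h1 := hC (t r) ((trn x0 t r).card + 1) _ htr hK (h.ineq hr)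
  have h2 : Real.log (200 * ((ℓ : ℝ) ^ 3 / nu3 ℓ) * (1 + Real.log (x0 : ℝ))) =
      Real.log 200 + (3 * Real.log ℓ - Real.log (nu3 ℓ)) + Real.log (1 + Real.log (x0 : ℝ)) := by
    rw [Real.log_mul (by positivity) (by linarith), Real.log_mul (by norm_num) (by positivity),
      Real.log_div (by positivity) hν0.ne', Real.log_pow]
    norm_num
  have h3 := nu3_log hℓR
  rw [h2] at h1
  have h4 : 3 * Real.log (ℓ : ℝ) - Real.log (nu3 ℓ) = A0 + 52 * Real.log ℓ := by
    rw [hA0]; linarith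
  rw [h4] at h1
  push_cast at h1
  set a := Real.log (ℓ : ℝ)
  set b := Real.log (1 + Real.log (x0 : ℝ))
  have hCa := le_abs_self C
  have hC0 := abs_nonneg C
  have h5 : 2 * c * (Real.log 200 + (A0 + 52 * a) + b) ≤
      2 * c * ((Real.log 200 + A0 + 52) * (1 + a + b)) := by
    apply mul_le_mul_of_nonneg_left _ (by linarith)
    nlinarith [mul_nonneg hl200 hlℓ, mul_nonneg hl200 hlu, mul_nonneg hA00 hlℓ, mul_nonneg hA00 hlu]
  have h6 : (1 + |C|) ≤ (1 + |C|) * (1 + a + b) := le_mul_of_one_le_right (by linarith) (by linarith)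
  linarith

/-- **All trajectories.** -/
theorem traj_all (c : ℝ) (hc : c < 1 / Real.log (Real.log 3 / Real.log 2)) :
    ∃ C : ℝ, 0 ≤ C ∧ ∀ (n : ℕ) (t : ℕ → ℕ) (r m ℓ : ℕ), 1 ≤ n → IsCutting t r m ℓ →
      (∀ i j, i < m → j < m → TN^[i] n = TN^[j] n → i = j) →
      c * Real.log m ≤ (turnsN n t r).card +
        C * (1 + Real.log ℓ + Real.log (1 + Real.log n)) := by
  rcases le_or_gt c 0 with hc0 | hc0
  · refine ⟨0, le_rfl, fun n t r m ℓ hn hcut hinj => ?_⟩
    have h2 : 0 ≤ Real.log (m : ℝ) := Real.log_natCast_nonneg m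
    have h3 : c * Real.log m ≤ 0 := mul_nonpos_of_nonpos_of_nonneg hc0 h2
    have h4 : (0 : ℝ) ≤ (turnsN n t r).card := Nat.cast_nonneg _
    linarith
  obtain ⟨C, hC0, hC⟩ := traj_big c hc hc0
  have hl18 : 0 ≤ Real.log 18 := Real.log_nonneg (by norm_num)
  refine ⟨C + c * (Real.log 18 + 1), by positivity, fun n t r m ℓ hn hcut hinj => ?_⟩
  have hT0 : (0 : ℝ) ≤ (turnsN n t r).card := Nat.cast_nonneg _
  have hlℓ : 0 ≤ Real.log (ℓ : ℝ) := Real.log_natCast_nonneg ℓ
  have hln : 0 ≤ Real.log (n : ℝ) := Real.log_natCast_nonneg n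
  have hlu : 0 ≤ Real.log (1 + Real.log (n : ℝ)) := Real.log_nonneg (by linarith)
  set V := 1 + Real.log (ℓ : ℝ) + Real.log (1 + Real.log (n : ℝ)) with hV
  have hV1 : 1 ≤ V := by linarith
  have hCV : 0 ≤ C * V := by positivity
  rcases Nat.eq_zero_or_pos m with rfl | hm
  · have : 0 ≤ (C + c * (Real.log 18 + 1)) * V := by positivity
    simp only [Nat.cast_zero, Real.log_zero, mul_zero]
    linarith
  have hr : 1 ≤ r := by
    by_contra hcon
    have hr0 : r = 0 := by omega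
    obtain ⟨h0, h1, -⟩ := hcut
    rw [hr0, h0] at h1
    omega
  have hℓ : 1 ≤ ℓ := by
    have := hcut.2.2 0 (by omega)
    omega
  have hℓR : (1 : ℝ) ≤ ℓ := by exact_mod_cast hℓ
  have hl18ℓ : Real.log (17 + (ℓ : ℝ)) ≤ Real.log 18 + Real.log ℓ := by
    rw [← Real.log_mul (by norm_num) (by linarith)]
    exact Real.log_le_log (by linarith) (by linarith)
  have hfin : c * (Real.log 18 + Real.log ℓ) ≤ c * (Real.log 18 + 1) * V := by
    rw [mul_assoc]
    apply mul_le_mul_of_nonneg_left _ hc0.le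
    have h1 : Real.log 18 ≤ Real.log 18 * V := le_mul_of_one_le_right hl18 hV1
    have h2 : Real.log (ℓ : ℝ) ≤ V := by linarith
    linarith
  rcases Nat.lt_or_ge (16 + ℓ) m with hbig | hsmall
  · obtain ⟨r', hr', h1, h2⟩ := exists_cut hcut (M := m - 17) (by omega)
    have htr : Tr (n : ℤ) t r' ℓ := by
      refine ⟨hcut.1, fun i hi => (hcut.2.2 i (by omega)).1, fun i hi => (hcut.2.2 i (by omega)).2,
        fun i hi => ?_, fun i j hi hj hij => ?_⟩
      · rw [← TN_iter_cast]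
        have h3 := TN_pos (by omega : 0 < n) i
        by_contra hcon
        have h4 : TN^[i] n < 10 := by omega
        have h5 := small_per _ h3 h4
        rw [← Function.iterate_add_apply, ← Function.iterate_add_apply] at h5
        have := hinj _ _ (by omega) (by omega) h5
        omega
      · rw [← TN_iter_cast, ← TN_iter_cast] at hij
        exact hinj i j (by omega) (by omega) (by exact_mod_cast hij)
    have hr1 : 1 ≤ r' := by
      by_contra hcon
      have : r' = 0 := by omega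
      subst this
      rw [hcut.1] at h1 h2
      omega
    have h3 := hC (n : ℤ) t r' ℓ htr hr1
    have h4 : ((trn (n : ℤ) t r').card : ℝ) ≤ (turnsN n t r).card := by
      exact_mod_cast trn_le n t hr'.le
    have h5 : Real.log (m : ℝ) ≤ Real.log (t r') + (Real.log 18 + Real.log ℓ) := by
      have h6 : (m : ℝ) ≤ t r' * (17 + ℓ) := by
        have h8 : 1 ≤ t r' := by omega
        have h7 : m ≤ t r' * (17 + ℓ) := by
          have e1 : m ≤ t r' + (16 + ℓ) := by omega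
          have e2 : 1 * (16 + ℓ) ≤ t r' * (16 + ℓ) := Nat.mul_le_mul_right _ h8
          have e3 : t r' * (17 + ℓ) = t r' + t r' * (16 + ℓ) := by ring
          omega
        exact_mod_cast h7
      have h9 : (1 : ℝ) ≤ t r' := by exact_mod_cast (by omega : 1 ≤ t r')
      calc Real.log (m : ℝ) ≤ Real.log (t r' * (17 + ℓ)) := Real.log_le_log (by positivity) h6
        _ = Real.log (t r') + Real.log (17 + ℓ) := Real.log_mul (by linarith) (by linarith)
        _ ≤ _ := by linarith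
    have h6 := mul_le_mul_of_nonneg_left h5 hc0.le
    rw [mul_add] at h6
    push_cast at h3
    linarith
  · have h5 : Real.log (m : ℝ) ≤ Real.log 18 + Real.log ℓ := by
      have h6 : (m : ℝ) ≤ 17 + ℓ := by exact_mod_cast (by omega : m ≤ 17 + ℓ)
      have h7 : (0 : ℝ) < m := by exact_mod_cast hm
      exact (Real.log_le_log h7 h6).trans hl18ℓ
    have h6 := mul_le_mul_of_nonneg_left h5 hc0.le
    linarith

theorem never_one {n M j π : ℕ} (h1 : 1 ≤ π) (hM : j + π ≤ M) (h : TN^[j + π] n = TN^[j] n)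
    (hne : ∀ i ≤ M, TN^[i] n ≠ 1) : ∀ i, TN^[i] n ≠ 1 := by
  intro i
  induction i using Nat.strong_induction_on with
  | _ i ih =>
    rcases Nat.lt_or_ge M i with h2 | h2
    · have e1 : TN^[i] n = TN^[i - (j + π)] (TN^[j + π] n) := by
        rw [← Function.iterate_add_apply, show i - (j + π) + (j + π) = i by omega]
      have e2 : TN^[i - π] n = TN^[i - (j + π)] (TN^[j] n) := by
        rw [← Function.iterate_add_apply, show i - (j + π) + j = i - π by omega]
      rw [e1, h, ← e2]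
      exact ih _ (by omega)
    · exact hne i h2

/-- **The exceptions.** -/
theorem exc (c : ℝ) (hc : c < 1 / Real.log (Real.log 3 / Real.log 2)) :
    ∃ ε η : ℝ, 0 < ε ∧ ε < 1 ∧ 0 < η ∧ ∃ N : ℕ, ∀ n : ℕ, N ≤ n → (∀ k ≤ n, Col^[k] n ≠ 1) →
      ((∃ j π : ℕ, 1 ≤ π ∧ ((j + π : ℕ) : ℝ) ≤ (n : ℝ) ^ (1 - ε) ∧ TN^[j + π] n = TN^[j] n) ∧
        ∀ i, TN^[i] n ≠ 1) ∨
      ∀ (t : ℕ → ℕ) (r ℓ : ℕ), IsCutting t r (n / 2) ℓ → (ℓ : ℝ) ≤ (n : ℝ) ^ η →
        c * Real.log n ≤ (turnsN n t r).card := by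
  obtain ⟨c', h1, h2⟩ := exists_between (max_lt hc (show (0 : ℝ) < 1 / Real.log (Real.log 3 / Real.log 2) by
    have hκ : 1 < Real.log 3 / Real.log 2 := by
      have := logb_gt (q := 3) le_rfl
      exact_mod_cast this
    have := Real.log_pos hκ
    positivity))
  have hcc' : c < c' := (le_max_left _ _).trans_lt h1
  have hc'0 : 0 < c' := (le_max_right _ _).trans_lt h1
  obtain ⟨C, hC0, hC⟩ := traj_all c' h2
  set Δ := c' - c with hΔ
  have hΔ0 : 0 < Δ := by linarith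
  set ε := min (1 / 4) (Δ / (8 * c')) with hε
  set η := min (1 / 4) (Δ / (4 * (C + 1))) with hη
  have hε0 : 0 < ε := lt_min (by norm_num) (by positivity)
  have hη0 : 0 < η := lt_min (by norm_num) (by positivity)
  have hε4 : ε ≤ 1 / 4 := min_le_left _ _
  have hη4 : η ≤ 1 / 4 := min_le_left _ _
  have hε8 : c' * (2 * ε) ≤ Δ / 4 := by
    have h3 : ε ≤ Δ / (8 * c') := min_le_right _ _
    calc c' * (2 * ε) ≤ c' * (2 * (Δ / (8 * c'))) := by gcongr
      _ = Δ / 4 := by field_simp; ring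
  have hη8 : C * η ≤ Δ / 4 := by
    have h3 : η ≤ Δ / (4 * (C + 1)) := min_le_right _ _
    calc C * η ≤ (C + 1) * (Δ / (4 * (C + 1))) := by gcongr; linarith
      _ = Δ / 4 := by field_simp
  -- large n
  have ev : ∀ᶠ x : ℝ in atTop, 4 ≤ x ∧ 2 * x ^ (1 / 4 : ℝ) ≤ x ^ (3 / 4 : ℝ) ∧
      2 ≤ x ^ ε ∧ 4 * x ^ (1 - ε) ≤ x ∧
      C * (1 + Real.log (1 + Real.log x)) ≤ Δ / 2 * Real.log x := by
    refine (eventually_ge_atTop 4).and ?_
    have e1 : ∀ᶠ x : ℝ in atTop, 4 ≤ x ^ ε := (tendsto_rpow_atTop hε0).eventually_ge_atTop 4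
    have e2 : ∀ᶠ x : ℝ in atTop, 2 ≤ x ^ (1 / 2 : ℝ) :=
      (tendsto_rpow_atTop (by norm_num)).eventually_ge_atTop 2
    have e3 : ∀ᶠ y : ℝ in atTop, C * (1 + Real.log (1 + y)) ≤ Δ / 2 * y := by
      have h3 : Tendsto (fun y : ℝ => 1 + y) atTop atTop := tendsto_atTop_add_const_left _ _ tendsto_id
      have h4 := (Real.isLittleO_log_id_atTop.comp_tendsto h3).bound
        (show (0 : ℝ) < Δ / (8 * (C + 1)) by positivity)
      filter_upwards [h4, eventually_ge_atTop (max 1 (8 * (C + 1) / Δ))] with y h5 h6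
      have h7 : 1 ≤ y := (le_max_left _ _).trans h6
      have h8 : 8 * (C + 1) / Δ ≤ y := (le_max_right _ _).trans h6
      simp only [Function.comp, id] at h5
      rw [Real.norm_of_nonneg (Real.log_nonneg (by linarith)), Real.norm_of_nonneg (by linarith)] at h5
      have h9 : C * (1 + Real.log (1 + y)) ≤ (C + 1) * (1 + Δ / (8 * (C + 1)) * (1 + y)) := by
        have h10 : 0 ≤ Real.log (1 + y) := Real.log_nonneg (by linarith)
        calc C * (1 + Real.log (1 + y)) ≤ (C + 1) * (1 + Real.log (1 + y)) := by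
              apply mul_le_mul_of_nonneg_right (by linarith) (by linarith)
          _ ≤ _ := mul_le_mul_of_nonneg_left (by linarith) (by linarith)
      have h10 : (C + 1) * (1 + Δ / (8 * (C + 1)) * (1 + y)) = (C + 1) + Δ / 8 * (1 + y) := by
        field_simp
      rw [div_le_iff₀ hΔ0] at h8
      nlinarith
    have e4 := Real.tendsto_log_atTop.eventually e3
    filter_upwards [e1, e2, e4, eventually_ge_atTop (4 : ℝ)] with x h3 h4 h5 h6
    have hx0 : 0 < x := by linarith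
    refine ⟨?_, by linarith, ?_, h5⟩
    · calc 2 * x ^ (1 / 4 : ℝ) ≤ x ^ (1 / 2 : ℝ) * x ^ (1 / 4 : ℝ) := by gcongr
        _ = x ^ (3 / 4 : ℝ) := by rw [← Real.rpow_add hx0]; norm_num
    · calc 4 * x ^ (1 - ε) ≤ x ^ ε * x ^ (1 - ε) := by gcongr
        _ = x := by rw [← Real.rpow_add hx0]; norm_num
  obtain ⟨X, hX⟩ := eventually_atTop.1 ev
  refine ⟨ε, η, hε0, by linarith, hη0, ⌈X⌉₊, fun n hn hcol => ?_⟩
  obtain ⟨g1, g2, g3, g4, g5⟩ := hX n (Nat.ceil_le.1 hn)
  have hne : ∀ i ≤ n / 2, TN^[i] n ≠ 1 := by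
    intro i hi h
    obtain ⟨k, hk, h2⟩ := unaccel n i
    exact hcol k (by omega) (h2.trans h)
  by_cases ha : ∃ j π : ℕ, 1 ≤ π ∧ ((j + π : ℕ) : ℝ) ≤ (n : ℝ) ^ (1 - ε) ∧ TN^[j + π] n = TN^[j] n
  · left
    refine ⟨ha, ?_⟩
    obtain ⟨j, π, h3, h4, h5⟩ := ha
    have h6 : (2 : ℝ) * ((j + π : ℕ) : ℝ) ≤ n := by linarith
    have h7 : 2 * (j + π) ≤ n := by exact_mod_cast h6
    exact never_one h3 (by omega : j + π ≤ n / 2) h5 hne
  right
  intro t r ℓ hcut hℓη
  have hn0 : (0 : ℝ) < n := by linarith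
  have hn1 : 1 ≤ n := by exact_mod_cast (by linarith : (1 : ℝ) ≤ n)
  set M := ⌊(n : ℝ) ^ (1 - ε)⌋₊ with hM
  have hMle : (M : ℝ) ≤ (n : ℝ) ^ (1 - ε) := Nat.floor_le (by positivity)
  have hMlt : (n : ℝ) ^ (1 - ε) < M + 1 := Nat.lt_floor_add_one _
  have hdist : ∀ i j, i ≤ M → j ≤ M → TN^[i] n = TN^[j] n → i = j := by
    have key : ∀ i j, i < j → j ≤ M → TN^[i] n ≠ TN^[j] n := by
      intro i j hij hj h3
      refine ha ⟨i, j - i, by omega, ?_, ?_⟩
      · rw [show i + (j - i) = j by omega]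
        exact le_trans (by exact_mod_cast hj) hMle
      · rw [show i + (j - i) = j by omega]
        exact h3.symm
    intro i j hi hj h3
    rcases lt_trichotomy i j with h4 | h4 | h4
    · exact absurd h3 (key i j h4 hj)
    · exact h4
    · exact absurd h3.symm (key j i h4 hi)
  have hMn : M < n / 2 := by
    have h3 : (4 : ℝ) * M ≤ n := by linarith
    have h4 : 4 * M ≤ n := by exact_mod_cast h3
    have h5 : 4 ≤ n := by exact_mod_cast g1
    omega
  obtain ⟨r', hr', h3, h4⟩ := exists_cut hcut hMn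
  have hcut' : IsCutting t r' (t r') ℓ := ⟨hcut.1, rfl, fun i hi => hcut.2.2 i (by omega)⟩
  have h5 := hC n t r' (t r') ℓ hn1 hcut' fun i j hi hj hij => hdist i j (by omega) (by omega) hij
  have h6 : ((turnsN n t r').card : ℝ) ≤ (turnsN n t r).card := by
    exact_mod_cast turnsN_mono n t hr'.le
  -- the size of t r'
  have h7 : (n : ℝ) ^ (1 - 2 * ε) ≤ t r' := by
    have h8 : (M : ℝ) + 1 ≤ t r' + ℓ := by exact_mod_cast h4
    have h9 : (n : ℝ) ^ η ≤ (n : ℝ) ^ (1 / 4 : ℝ) := Real.rpow_le_rpow_of_exponent_le (by linarith) hη4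
    have h10 : (n : ℝ) ^ (3 / 4 : ℝ) ≤ (n : ℝ) ^ (1 - ε) :=
      Real.rpow_le_rpow_of_exponent_le (by linarith) (by linarith)
    have h11 : 2 * (n : ℝ) ^ (1 - 2 * ε) ≤ (n : ℝ) ^ (1 - ε) := by
      calc 2 * (n : ℝ) ^ (1 - 2 * ε) ≤ (n : ℝ) ^ ε * (n : ℝ) ^ (1 - 2 * ε) := by gcongr
        _ = (n : ℝ) ^ (1 - ε) := by rw [← Real.rpow_add hn0]; congr 1; ring
    linarith
  have hlogt : (1 - 2 * ε) * Real.log n ≤ Real.log (t r') := by
    have h8 := Real.log_le_log (by positivity) h7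
    rwa [Real.log_rpow hn0] at h8
  have hln : 0 ≤ Real.log (n : ℝ) := Real.log_natCast_nonneg n
  have hℓ1 : 1 ≤ ℓ := by omega
  have hlogℓ : Real.log (ℓ : ℝ) ≤ η * Real.log n := by
    have h8 := Real.log_le_log (by exact_mod_cast hℓ1) hℓη
    rwa [Real.log_rpow hn0] at h8
  have h8 : c' * ((1 - 2 * ε) * Real.log n) ≤ c' * Real.log (t r') :=
    mul_le_mul_of_nonneg_left hlogt hc'0.le
  have h9 : C * Real.log ℓ ≤ C * (η * Real.log n) := mul_le_mul_of_nonneg_left hlogℓ hC0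
  have h10 : c' * (2 * ε) * Real.log n ≤ Δ / 4 * Real.log n := mul_le_mul_of_nonneg_right hε8 hln
  have h11 : C * η * Real.log n ≤ Δ / 4 * Real.log n := mul_le_mul_of_nonneg_right hη8 hln
  nlinarith

end Pool.Agent.H26.CU
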